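import Pool.Agent.R402.RO.Stm

/-! Piece RO-BAIRE of project RO. -/

set_option autoImplicit false
open scoped InnerProductSpace Topology
open Filter Set

namespace Pool.Agent.R402.RO


theorem baire_of (hUL : ULStm) : BaireStm := by
  intro H _ _ _ 𝔄 R hA hmg
  by_contra hcon
  apply hmg
  have hun : {x : H | ∃ S ∈ 𝔄, S x = R x} =
      ⋃ k : ℕ, {x : H | ∃ S ∈ 𝔄, ‖S‖ ≤ (k : ℝ) ∧ S x = R x} := by
    ext x
    simp only [Set.mem_setOf_eq, Set.mem_iUnion]
    constructor
    · rintro ⟨S, hS, h⟩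
      obtain ⟨k, hk⟩ := exists_nat_ge ‖S‖
      exact ⟨k, S, hS, hk, h⟩
    · rintro ⟨k, S, hS, -, h⟩
      exact ⟨S, hS, h⟩
  have hcl : ∀ k : ℕ, IsClosed {x : H | ∃ S ∈ 𝔄, ‖S‖ ≤ (k : ℝ) ∧ S x = R x} := by
    intro k
    rw [← isSeqClosed_iff_isClosed]
    intro x y hx hxy
    choose S hS hSn hSx using hx
    obtain ⟨C, hC, hlim⟩ := hUL H S k hSn (Filter.hyperfilter ℕ)
    have hle : (Filter.hyperfilter ℕ : Filter ℕ) ≤ atTop := by
      rw [← Nat.cofinite_eq_atTop]
      exact Filter.hyperfilter_le_cofinite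
    refine ⟨C, ?_, hC, ?_⟩
    · apply hA.wot
      intro n a b ε hε
      have hev : ∀ᶠ m in (Filter.hyperfilter ℕ : Filter ℕ),
          ∀ i : Fin n, ‖⟪(C - S m) (a i), b i⟫_ℂ‖ < ε := by
        rw [Filter.eventually_all]
        intro i
        have h1 := hlim (b i) (a i)
        have h2 := (tendsto_const_nhds (x := ⟪b i, C (a i)⟫_ℂ)).sub h1 |>.norm
        rw [sub_self, norm_zero] at h2
        filter_upwards [h2.eventually (gt_mem_nhds hε)] with m hm
        have e : ⟪(C - S m) (a i), b i⟫_ℂ =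
            (starRingEnd ℂ) (⟪b i, C (a i)⟫_ℂ - ⟪b i, S m (a i)⟫_ℂ) := by
          rw [← inner_sub_right, inner_conj_symm]
          rfl
        rw [e, RCLike.norm_conj]
        exact hm
      obtain ⟨m, hm⟩ := hev.exists
      exact ⟨S m, hS m, hm⟩
    · apply ext_inner_left ℂ
      intro v
      have h1 := hlim v y
      have h2 : Tendsto (fun n => ⟪v, S n y⟫_ℂ) atTop (𝓝 ⟪v, R y⟫_ℂ) := by
        have e : ∀ n, S n y = R (x n) + S n (y - x n) := by
          intro n
          rw [map_sub, hSx n]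
          abel
        have t0 : Tendsto (fun n => S n (y - x n)) atTop (𝓝 0) := by
          apply squeeze_zero_norm (a := fun n => (k : ℝ) * ‖y - x n‖)
          · intro n
            exact (S n).le_of_opNorm_le (hSn n) _
          · have h3 := ((tendsto_const_nhds (x := y)).sub hxy).norm.const_mul (k : ℝ)
            simpa using h3
        have t1 : Tendsto (fun n => S n y) atTop (𝓝 (R y)) := by
          have h3 := ((R.continuous.tendsto y).comp hxy).add t0
          rw [add_zero] at h3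
          refine h3.congr fun n => ?_
          exact (e n).symm
        exact ((innerSL ℂ v).continuous.tendsto _).comp t1
      exact tendsto_nhds_unique h1 (h2.mono_left hle)
  rw [hun]
  refine isMeagre_iUnion fun k => ?_
  apply IsNowhereDense.isMeagre
  rw [(hcl k).isNowhereDense_iff]
  by_contra hint
  rw [← Ne, ← Set.nonempty_iff_ne_empty] at hint
  obtain ⟨z, hz⟩ := hint
  rw [mem_interior_iff_mem_nhds, Metric.mem_nhds_iff] at hz
  obtain ⟨δ, hδ, hball⟩ := hz
  refine hcon ⟨z, δ, k + 1, hδ, by positivity, fun x hx => ?_⟩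
  obtain ⟨S, hS, h1, h2⟩ := hball (mem_ball_iff_norm.2 hx)
  exact ⟨S, hS, h1.trans (by linarith), h2⟩

end Pool.Agent.R402.RO
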