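import Pool.Agent.R402.RO.Stm

/-! BD piece of project RO (helper402), by helper159. -/

set_option autoImplicit false
open scoped InnerProductSpace Topology
open Filter Set

namespace Pool.Agent.R402.RO

theorem bd_of (hSeq : SeqStm) : BdStm := by
  intro H _ _ _ 𝔄 h𝔄 Q c hc hQ z hGood R hR hRle a ha hbd y hy
  obtain ⟨F, hF, hlim, -, hbound⟩ := hSeq H 𝔄 h𝔄 Q c hc z hGood y (hRle hy)
  obtain ⟨a', ha', b, hb, hz, -⟩ := hR.decomp z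
  have hQy : Q y ∈ R := hQ R hR y hy
  -- ‖a'‖ ≤ a
  have hab : ⟪a', b⟫_ℂ = 0 := (Submodule.mem_orthogonal R b).1 hb a' ha'
  have ha'le : ‖a'‖ ≤ a := by
    have h1 : ⟪a', z⟫_ℂ = ⟪a', a'⟫_ℂ := by
      rw [hz, inner_add_right, hab, add_zero]
    have h2 := hbd a' ha'
    rw [h1, inner_self_eq_norm_sq_to_K] at h2
    have h3 : ‖((‖a'‖ : ℂ)) ^ 2‖ = ‖a'‖ ^ 2 := by
      rw [norm_pow, Complex.norm_real, norm_norm]
    have h4 : ‖a'‖ ^ 2 ≤ a * ‖a'‖ := by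
      rw [← h3]; exact h2
    by_contra hcon
    push Not at hcon
    have h5 : 0 < ‖a'‖ := lt_of_le_of_lt ha hcon
    nlinarith
  by_cases hQ0 : ‖Q y‖ = 0
  · rw [hQ0]; positivity
  have hQpos : 0 < ‖Q y‖ := lt_of_le_of_ne (norm_nonneg _) (Ne.symm hQ0)
  have key : ∀ η : ℝ, 0 < η → ‖Q y‖ ≤ (c * ‖y‖ + η) * a := by
    intro η hη
    obtain ⟨N, hN⟩ := hbound η hη
    have h1 : Tendsto (fun n => ‖⟪Q y, F n z⟫_ℂ‖) atTop (𝓝 ‖⟪Q y, Q y⟫_ℂ‖) :=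
      ((tendsto_const_nhds).inner hlim).norm
    have h2 : ∀ᶠ n in atTop, ‖⟪Q y, F n z⟫_ℂ‖ ≤ ‖Q y‖ * ((c * ‖y‖ + η) * a) := by
      filter_upwards [eventually_ge_atTop N] with n hn
      have hFb : F n b ∈ Rᗮ := (hR.orth h𝔄).2 (F n) (hF n) b hb
      have h3 : ⟪Q y, F n z⟫_ℂ = ⟪Q y, F n a'⟫_ℂ := by
        rw [hz, map_add, inner_add_right, (Submodule.mem_orthogonal R _).1 hFb _ hQy, add_zero]
      rw [h3]
      have h4 := hN n hn a' (hRle ha')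
      have h5 : 0 ≤ c * ‖y‖ + η := by positivity
      calc ‖⟪Q y, F n a'⟫_ℂ‖ ≤ ‖Q y‖ * ‖F n a'‖ := norm_inner_le_norm _ _
        _ ≤ ‖Q y‖ * ((c * ‖y‖ + η) * ‖a'‖) := by gcongr
        _ ≤ ‖Q y‖ * ((c * ‖y‖ + η) * a) := by gcongr
    have h6 := le_of_tendsto h1 h2
    rw [inner_self_eq_norm_sq_to_K] at h6
    have h7 : ‖((‖Q y‖ : ℂ)) ^ 2‖ = ‖Q y‖ ^ 2 := by
      rw [norm_pow, Complex.norm_real, norm_norm]
    have h8 : ‖Q y‖ ^ 2 ≤ ‖Q y‖ * ((c * ‖y‖ + η) * a) := by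
      rw [← h7]; exact h6
    rw [pow_two] at h8
    exact le_of_mul_le_mul_left h8 hQpos
  have h9 : ‖Q y‖ ≤ (c * ‖y‖ + 0) * a := by
    have hcont : Tendsto (fun η : ℝ => (c * ‖y‖ + η) * a) (𝓝[>] 0) (𝓝 ((c * ‖y‖ + 0) * a)) := by
      apply Tendsto.mono_left _ nhdsWithin_le_nhds
      exact ((continuous_const.add continuous_id).mul continuous_const).tendsto 0
    refine ge_of_tendsto hcont ?_
    filter_upwards [self_mem_nhdsWithin] with η hη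
    exact key η hη
  calc ‖Q y‖ ≤ (c * ‖y‖ + 0) * a := h9
    _ = c * a * ‖y‖ := by ring

end Pool.Agent.R402.RO
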