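import Mathlib

/-! Commutative reductive algebras: definitions and basic lemmas (helper402, project RO). -/

set_option autoImplicit false
open scoped InnerProductSpace Topology
open Filter Set

namespace Pool.Agent.R402.RO

variable {H : Type} [NormedAddCommGroup H] [InnerProductSpace ℂ H] [CompleteSpace H]

/-- commutative, WOT closed, reductive algebra -/
structure Red (𝔄 : Subalgebra ℂ (H →L[ℂ] H)) : Prop where
  comm : ∀ S ∈ 𝔄, ∀ R ∈ 𝔄, S * R = R * S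
  wot : ∀ T : H →L[ℂ] H, (∀ (n : ℕ) (x y : Fin n → H) (ε : ℝ), 0 < ε →
      ∃ S ∈ 𝔄, ∀ i : Fin n, ‖⟪(T - S) (x i), y i⟫_ℂ‖ < ε) → T ∈ 𝔄
  red : ∀ M : Submodule ℂ H, IsClosed (M : Set H) → (∀ S ∈ 𝔄, ∀ v ∈ M, S v ∈ M) →
      ∀ S ∈ 𝔄, ∀ v ∈ M, (star S) v ∈ M

/-- closed invariant subspace -/
def CI (𝔄 : Subalgebra ℂ (H →L[ℂ] H)) (M : Submodule ℂ H) : Prop :=
  IsClosed (M : Set H) ∧ ∀ S ∈ 𝔄, ∀ v ∈ M, S v ∈ M

/-- the cyclic subspace: closure of `𝔄 w` -/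
noncomputable def cyc (𝔄 : Subalgebra ℂ (H →L[ℂ] H)) (w : H) : Submodule ℂ H :=
  (Submodule.map ((ContinuousLinearMap.apply ℂ H w) : (H →L[ℂ] H) →ₗ[ℂ] H)
    (Subalgebra.toSubmodule 𝔄)).topologicalClosure

variable {𝔄 : Subalgebra ℂ (H →L[ℂ] H)}

theorem mem_cyc_of_mem {S : H →L[ℂ] H} (hS : S ∈ 𝔄) (w : H) : S w ∈ cyc 𝔄 w :=
  Submodule.le_topologicalClosure _ ⟨S, hS, rfl⟩

theorem mem_cyc_self (w : H) : w ∈ cyc 𝔄 w := by
  simpa using mem_cyc_of_mem (one_mem 𝔄) w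

theorem mem_cyc_iff_seq (w y : H) : y ∈ cyc 𝔄 w ↔
    ∃ E : ℕ → (H →L[ℂ] H), (∀ n, E n ∈ 𝔄) ∧ Tendsto (fun n => E n w) atTop (𝓝 y) := by
  constructor
  · intro hy
    have h1 : y ∈ closure ((Submodule.map ((ContinuousLinearMap.apply ℂ H w) : (H →L[ℂ] H) →ₗ[ℂ] H)
      (Subalgebra.toSubmodule 𝔄) : Submodule ℂ H) : Set H) := by
      rw [← Submodule.topologicalClosure_coe]; exact hy
    obtain ⟨x, hx, hlim⟩ := mem_closure_iff_seq_limit.1 h1
    choose E hE hE2 using hx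
    refine ⟨E, hE, ?_⟩
    have : (fun n => E n w) = x := by
      funext n
      exact hE2 n
    rw [this]
    exact hlim
  · rintro ⟨E, hE, hlim⟩
    have h1 : y ∈ closure ((Submodule.map ((ContinuousLinearMap.apply ℂ H w) : (H →L[ℂ] H) →ₗ[ℂ] H)
      (Subalgebra.toSubmodule 𝔄) : Submodule ℂ H) : Set H) :=
      mem_closure_iff_seq_limit.2 ⟨fun n => E n w, fun n => ⟨E n, hE n, rfl⟩, hlim⟩
    rw [← Submodule.topologicalClosure_coe] at h1
    exact h1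

theorem cyc_CI (w : H) : CI 𝔄 (cyc 𝔄 w) := by
  refine ⟨Submodule.isClosed_topologicalClosure _, ?_⟩
  intro S hS v hv
  obtain ⟨E, hE, hlim⟩ := (mem_cyc_iff_seq w v).1 hv
  refine (mem_cyc_iff_seq w _).2 ⟨fun n => S * E n, fun n => mul_mem hS (hE n), ?_⟩
  exact (S.continuous.tendsto v).comp hlim

theorem cyc_le {M : Submodule ℂ H} (hM : CI 𝔄 M) {w : H} (hw : w ∈ M) : cyc 𝔄 w ≤ M := by
  intro y hy
  obtain ⟨E, hE, hlim⟩ := (mem_cyc_iff_seq w y).1 hy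
  exact hM.1.mem_of_tendsto hlim (Eventually.of_forall fun n => hM.2 _ (hE n) _ hw)

theorem CI.star (h𝔄 : Red 𝔄) {M : Submodule ℂ H} (hM : CI 𝔄 M) {S : H →L[ℂ] H} (hS : S ∈ 𝔄)
    {v : H} (hv : v ∈ M) : (star S) v ∈ M := h𝔄.red M hM.1 hM.2 S hS v hv

theorem CI.orth (h𝔄 : Red 𝔄) {M : Submodule ℂ H} (hM : CI 𝔄 M) : CI 𝔄 Mᗮ := by
  refine ⟨Submodule.isClosed_orthogonal M, ?_⟩
  intro S hS v hv
  rw [Submodule.mem_orthogonal] at hv ⊢
  intro u hu
  have h := hv _ (hM.star h𝔄 hS hu)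
  rw [ContinuousLinearMap.star_eq_adjoint, ContinuousLinearMap.adjoint_inner_left] at h
  exact h

theorem CI.inf {M N : Submodule ℂ H} (hM : CI 𝔄 M) (hN : CI 𝔄 N) : CI 𝔄 (M ⊓ N) := by
  refine ⟨?_, ?_⟩
  · rw [Submodule.coe_inf]
    exact hM.1.inter hN.1
  · intro S hS v hv
    exact ⟨hM.2 S hS v hv.1, hN.2 S hS v hv.2⟩

/-- orthogonal decomposition with respect to a closed subspace -/
theorem CI.decomp {M : Submodule ℂ H} (hM : CI 𝔄 M) (x : H) :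
    ∃ a ∈ M, ∃ b ∈ Mᗮ, x = a + b ∧ ‖x‖ ^ 2 = ‖a‖ ^ 2 + ‖b‖ ^ 2 := by
  haveI : CompleteSpace M := hM.1.isComplete.completeSpace_coe
  refine ⟨M.starProjection x, Submodule.starProjection_apply_mem M x, x - M.starProjection x,
    Submodule.sub_starProjection_mem_orthogonal x, by abel, ?_⟩
  have h := norm_add_sq_eq_norm_sq_add_norm_sq_of_inner_eq_zero (𝕜 := ℂ) (M.starProjection x) (x - M.starProjection x)
    ((Submodule.sub_starProjection_mem_orthogonal x) _ (Submodule.starProjection_apply_mem M x))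
  rw [add_sub_cancel] at h
  nlinarith [h]

/-- uniqueness of the orthogonal decomposition -/
theorem decomp_unique {M : Submodule ℂ H} {a b a' b' : H} (ha : a ∈ M) (hb : b ∈ Mᗮ)
    (ha' : a' ∈ M) (hb' : b' ∈ Mᗮ) (h : a + b = a' + b') : a = a' ∧ b = b' := by
  have h1 : a - a' = b' - b := by
    have : a - a' = (a + b) - a' - b := by abel
    rw [this, h]; abel
  have h2 : a - a' ∈ M := sub_mem ha ha'
  have h3 : a - a' ∈ Mᗮ := by rw [h1]; exact sub_mem hb' hb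
  have h4 : ⟪a - a', a - a'⟫_ℂ = 0 := h3 _ h2
  have h5 : a - a' = 0 := inner_self_eq_zero.1 h4
  have h6 : b' - b = 0 := by rw [← h1]; exact h5
  exact ⟨sub_eq_zero.1 h5, (sub_eq_zero.1 h6).symm⟩

/-- two elements of `𝔄` agreeing at `w` agree on `cyc 𝔄 w` -/
theorem eq_on_cyc (h𝔄 : Red 𝔄) {w : H} {S R : H →L[ℂ] H} (hS : S ∈ 𝔄) (hR : R ∈ 𝔄)
    (h : S w = R w) {x : H} (hx : x ∈ cyc 𝔄 w) : S x = R x := by
  obtain ⟨E, hE, hlim⟩ := (mem_cyc_iff_seq w x).1 hx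
  have h1 : Tendsto (fun n => S (E n w)) atTop (𝓝 (S x)) := (S.continuous.tendsto x).comp hlim
  have h2 : Tendsto (fun n => R (E n w)) atTop (𝓝 (R x)) := (R.continuous.tendsto x).comp hlim
  have h3 : (fun n => S (E n w)) = fun n => R (E n w) := by
    funext n
    have e1 : S (E n w) = E n (S w) := by
      have := congrArg (fun f : H →L[ℂ] H => f w) (h𝔄.comm S hS (E n) (hE n))
      simpa using this
    have e2 : R (E n w) = E n (R w) := by
      have := congrArg (fun f : H →L[ℂ] H => f w) (h𝔄.comm R hR (E n) (hE n))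
      simpa using this
    rw [e1, e2, h]
  rw [h3] at h1
  exact tendsto_nhds_unique h1 h2

theorem comm_apply (h𝔄 : Red 𝔄) {S R : H →L[ℂ] H} (hS : S ∈ 𝔄) (hR : R ∈ 𝔄) (x : H) :
    S (R x) = R (S x) := by
  have := congrArg (fun f : H →L[ℂ] H => f x) (h𝔄.comm S hS R hR)
  simpa using this

end Pool.Agent.R402.RO
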