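import Pool.Agent.R402.RO.Stm

/-! The double commutant of a reductive operator is a commutative reductive algebra. -/

set_option autoImplicit false
open scoped InnerProductSpace Topology
open Filter Set

namespace Pool.Agent.R402.RO

set_option linter.unusedSectionVars false
variable {H : Type} [NormedAddCommGroup H] [InnerProductSpace ℂ H] [CompleteSpace H]

/-- the double commutant of `T` as a subalgebra -/
noncomputable def bic (T : H →L[ℂ] H) : Subalgebra ℂ (H →L[ℂ] H) :=
  Subalgebra.centralizer ℂ (Set.centralizer {T})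

theorem mem_bic {T S : H →L[ℂ] H} : S ∈ bic T ↔ ∀ R : H →L[ℂ] H, R * T = T * R → S * R = R * S := by
  unfold bic
  rw [Subalgebra.mem_centralizer_iff]
  constructor
  · intro h R hR
    refine (h R ?_).symm
    rw [Set.mem_centralizer_iff]
    intro m hm
    rw [Set.mem_singleton_iff.1 hm]
    exact hR.symm
  · intro h R hR
    rw [Set.mem_centralizer_iff] at hR
    exact (h R (hR T rfl).symm).symm

theorem T_mem_bic (T : H →L[ℂ] H) : T ∈ bic T := mem_bic.2 fun _ h => h.symm

theorem red_bic (T : H →L[ℂ] H)
    (hred : ∀ M : Submodule ℂ H, IsClosed (M : Set H) → (∀ v ∈ M, T v ∈ M) →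
      ∀ v ∈ M, (star T) v ∈ M) : Red (bic T) := by
  refine ⟨?_, ?_, ?_⟩
  · intro S hS R hR
    have h1 : R * T = T * R := mem_bic.1 hR T rfl
    exact mem_bic.1 hS R h1
  · intro C hC
    rw [mem_bic]
    intro R hR
    ext x
    refine ext_inner_right ℂ fun y => ?_
    have key : ∀ ε : ℝ, 0 < ε → ‖⟪(C * R) x, y⟫_ℂ - ⟪(R * C) x, y⟫_ℂ‖ ≤ 2 * ε := by
      intro ε hε
      obtain ⟨S, hS, hSa⟩ := hC 2 ![R x, x] ![y, (star R) y] ε hε
      have h0 := hSa 0
      have h1 := hSa 1
      simp only [Matrix.cons_val_zero, Matrix.cons_val_one, Matrix.cons_val_fin_one] at h0 h1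
      have hSR : S (R x) = R (S x) := by
        have := congrArg (fun f : H →L[ℂ] H => f x) (mem_bic.1 hS R hR)
        simpa using this
      have h2 : ⟪(C - S) x, (star R) y⟫_ℂ = ⟪R ((C - S) x), y⟫_ℂ := by
        rw [ContinuousLinearMap.star_eq_adjoint, ContinuousLinearMap.adjoint_inner_right]
      have h3 : ⟪(C * R) x, y⟫_ℂ - ⟪(R * C) x, y⟫_ℂ
          = ⟪(C - S) (R x), y⟫_ℂ - ⟪(C - S) x, (star R) y⟫_ℂ := by
        rw [h2]
        simp only [ContinuousLinearMap.mul_apply, ContinuousLinearMap.sub_apply, map_sub,
          inner_sub_left, hSR]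
        ring
      rw [h3]
      calc _ ≤ ‖⟪(C - S) (R x), y⟫_ℂ‖ + ‖⟪(C - S) x, (star R) y⟫_ℂ‖ := norm_sub_le _ _
        _ ≤ 2 * ε := by linarith
    have h0 : ‖⟪(C * R) x, y⟫_ℂ - ⟪(R * C) x, y⟫_ℂ‖ ≤ 0 := by
      refine le_of_forall_pos_le_add fun ε hε => ?_
      have := key (ε / 2) (by positivity)
      linarith
    exact sub_eq_zero.1 (norm_le_zero_iff.1 h0)
  · intro M hM hinv S hS v hv
    have hTinv : ∀ v ∈ M, T v ∈ M := hinv T (T_mem_bic T)
    have hTs : ∀ v ∈ M, (star T) v ∈ M := hred M hM hTinv
    haveI : CompleteSpace M := hM.isComplete.completeSpace_coe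
    have hTorth : ∀ v ∈ Mᗮ, T v ∈ Mᗮ := by
      intro v hv
      rw [Submodule.mem_orthogonal] at hv ⊢
      intro u hu
      have h := hv _ (hTs u hu)
      rw [ContinuousLinearMap.star_eq_adjoint, ContinuousLinearMap.adjoint_inner_left] at h
      exact h
    have hP : M.starProjection * T = T * M.starProjection := by
      ext x
      have e1 : T x = T (M.starProjection x) + T (x - M.starProjection x) := by
        rw [← map_add, add_sub_cancel]
      have h1 : M.starProjection (T (M.starProjection x)) = T (M.starProjection x) :=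
        Submodule.starProjection_eq_self_iff.2 (hTinv _ (Submodule.starProjection_apply_mem M x))
      have h2 : M.starProjection (T (x - M.starProjection x)) = 0 :=
        (Submodule.starProjection_apply_eq_zero_iff _).2
          (hTorth _ (Submodule.sub_starProjection_mem_orthogonal x))
      change M.starProjection (T x) = T (M.starProjection x)
      rw [e1, map_add, h1, h2, add_zero]
    have hSP : S * M.starProjection = M.starProjection * S := mem_bic.1 hS _ hP
    -- `star S v ∈ M` since it is orthogonal to `Mᗮ`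
    have hSorth : ∀ u ∈ Mᗮ, S u ∈ Mᗮ := by
      intro u hu
      have h1 : M.starProjection u = 0 := (Submodule.starProjection_apply_eq_zero_iff _).2 hu
      have h2 : M.starProjection (S u) = 0 := by
        have := congrArg (fun f : H →L[ℂ] H => f u) hSP
        simp only [ContinuousLinearMap.mul_apply, h1, map_zero] at this
        exact this.symm
      exact (Submodule.starProjection_apply_eq_zero_iff _).1 h2
    have h3 : (star S) v ∈ Mᗮᗮ := by
      rw [Submodule.mem_orthogonal]
      intro u hu
      rw [ContinuousLinearMap.star_eq_adjoint, ContinuousLinearMap.adjoint_inner_right]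
      have h4 := hSorth u hu
      rw [Submodule.mem_orthogonal] at h4
      rw [← inner_conj_symm, h4 v hv, map_zero]
    rwa [Submodule.orthogonal_orthogonal] at h3

end Pool.Agent.R402.RO
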