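import Pool.Agent.R402.RO.Stm

set_option autoImplicit false
open scoped InnerProductSpace Topology
open Filter Set

namespace Pool.Agent.R402.RO

/-- a commutative complex Banach algebra has a contractive character -/
theorem CHI_char (B : Type) [hB : NormedRing B] [hA : NormedAlgebra ℂ B] [CompleteSpace B]
    [Nontrivial B] [NormOneClass B] (hc : ∀ x y : B, x * y = y * x) :
    ∃ χ : B →ₐ[ℂ] ℂ, ∀ b, ‖χ b‖ ≤ ‖b‖ := by
  letI hC : NormedCommRing B := { hB with mul_comm := hc }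
  letI hA2 : NormedAlgebra ℂ B := hA
  obtain ⟨φ⟩ : Nonempty (WeakDual.characterSpace ℂ B) := inferInstance
  exact ⟨WeakDual.CharacterSpace.toAlgHom φ, fun b => AlgHom.norm_apply_le_self _ b⟩

/-- a commutative subalgebra of a Banach algebra has a contractive character -/
theorem CHI_clos (B : Type) [NormedRing B] [NormedAlgebra ℂ B] [CompleteSpace B]
    [Nontrivial B] [NormOneClass B] (A : Subalgebra ℂ B)
    (hc : ∀ x ∈ A, ∀ y ∈ A, x * y = y * x) :
    ∃ χ : A →ₐ[ℂ] ℂ, ∀ a : A, ‖χ a‖ ≤ ‖(a : B)‖ := by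
  haveI : CompleteSpace A.topologicalClosure := (A.isClosed_topologicalClosure).completeSpace_coe
  have hr : ∀ x y : A, x * y = y * x := fun x y => Subtype.ext (hc x.1 x.2 y.1 y.2)
  have hcm : ∀ x y : A.topologicalClosure, x * y = y * x :=
    (A.commRingTopologicalClosure hr).mul_comm
  haveI : NormOneClass A.topologicalClosure := ⟨by
    change ‖(1 : B)‖ = 1
    exact norm_one⟩
  obtain ⟨χ, hχ⟩ := CHI_char A.topologicalClosure hcm
  exact ⟨χ.comp (Subalgebra.inclusion A.le_topologicalClosure), fun a => hχ _⟩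

/-- the restriction of the algebra to a closed invariant subspace -/
theorem CHI_res (H : Type) [NormedAddCommGroup H] [InnerProductSpace ℂ H]
    (𝔄 : Subalgebra ℂ (H →L[ℂ] H)) (K : Submodule ℂ H) (hK : ∀ S ∈ 𝔄, ∀ v ∈ K, S v ∈ K) :
    ∃ ψ : 𝔄 →ₐ[ℂ] (K →L[ℂ] K), ∀ (S : 𝔄) (x : K), ((ψ S x : K) : H) = (S : H →L[ℂ] H) x := by
  refine ⟨{
    toFun := fun S => ((S : H →L[ℂ] H).comp K.subtypeL).codRestrict K
      (fun x => hK S.1 S.2 x.1 x.2)
    map_one' := ?_
    map_mul' := ?_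
    map_zero' := ?_
    map_add' := ?_
    commutes' := ?_ }, ?_⟩
  · ext x; rfl
  · intro S R; ext x; rfl
  · ext x; rfl
  · intro S R; ext x; rfl
  · intro c
    ext x
    simp [Algebra.algebraMap_eq_smul_one]
  · intro S x
    rfl

theorem chi : ChiStm := by
  intro H _ _ _ 𝔄 hcomm K hK hne
  haveI : CompleteSpace K := hK.1.isComplete.completeSpace_coe
  haveI : Nontrivial K := Submodule.nontrivial_iff_ne_bot.2 hne
  obtain ⟨ψ, hψ⟩ := CHI_res H 𝔄 K hK.2
  have hc : ∀ x ∈ ψ.range, ∀ y ∈ ψ.range, x * y = y * x := by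
    rintro x ⟨S, rfl⟩ y ⟨R, rfl⟩
    change ψ S * ψ R = ψ R * ψ S
    rw [← map_mul, ← map_mul]
    congr 1
    exact Subtype.ext (hcomm S.1 S.2 R.1 R.2)
  obtain ⟨χ, hχ⟩ := CHI_clos (K →L[ℂ] K) ψ.range hc
  refine ⟨χ.comp ψ.rangeRestrict, ?_⟩
  intro S C hC hS
  refine (hχ _).trans ?_
  change ‖ψ S‖ ≤ C
  refine ContinuousLinearMap.opNorm_le_bound _ hC fun x => ?_
  have h1 := hS x.1 x.2
  rw [← hψ S x] at h1
  exact h1

end Pool.Agent.R402.RO
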