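import Pool.Agent.R402.RO.Stm

/-! Project RO, piece END: the common eigenvector. -/

set_option autoImplicit false
open scoped InnerProductSpace Topology
open Filter Set

namespace Pool.Agent.R402.RO

section

variable {H : Type} [NormedAddCommGroup H] [InnerProductSpace ℂ H] [CompleteSpace H]
variable {𝔄 : Subalgebra ℂ (H →L[ℂ] H)}

/-- the evaluation at `v` -/
noncomputable def endEv (𝔄 : Subalgebra ℂ (H →L[ℂ] H)) (v : H) : 𝔄 →ₗ[ℂ] H where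
  toFun M := (M : H →L[ℂ] H) v
  map_add' _ _ := rfl
  map_smul' _ _ := rfl

/-- the closure of the `M v` with `χ M = 0` -/
noncomputable def endR (χ : 𝔄 →ₐ[ℂ] ℂ) (v : H) : Submodule ℂ H :=
  (Submodule.map (endEv 𝔄 v) (LinearMap.ker χ.toLinearMap)).topologicalClosure

theorem endR_mem (χ : 𝔄 →ₐ[ℂ] ℂ) (v : H) {M : H →L[ℂ] H} (hM : M ∈ 𝔄) (h : χ ⟨M, hM⟩ = 0) :
    M v ∈ endR χ v :=
  Submodule.le_topologicalClosure _ ⟨⟨M, hM⟩, h, rfl⟩

theorem endR_dense (χ : 𝔄 →ₐ[ℂ] ℂ) (v : H) {x : H} (hx : x ∈ endR χ v) {ε : ℝ} (hε : 0 < ε) :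
    ∃ (M : H →L[ℂ] H) (hM : M ∈ 𝔄), χ ⟨M, hM⟩ = 0 ∧ ‖M v - x‖ < ε := by
  have h1 : x ∈ closure ((Submodule.map (endEv 𝔄 v) (LinearMap.ker χ.toLinearMap) :
      Submodule ℂ H) : Set H) := by
    rw [← Submodule.topologicalClosure_coe]
    exact hx
  obtain ⟨y, hy, hxy⟩ := Metric.mem_closure_iff.1 h1 ε hε
  obtain ⟨M, hM, hMy⟩ := hy
  refine ⟨M.1, M.2, hM, ?_⟩
  have h2 : (M : H →L[ℂ] H) v = y := hMy
  rw [h2, ← dist_eq_norm, dist_comm]
  exact hxy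

theorem endR_CI (χ : 𝔄 →ₐ[ℂ] ℂ) (v : H) : CI 𝔄 (endR χ v) := by
  refine ⟨Submodule.isClosed_topologicalClosure _, fun S hS x hx => ?_⟩
  have hcl : IsClosed ((endR χ v : Submodule ℂ H) : Set H) :=
    Submodule.isClosed_topologicalClosure _
  have h1 : x ∈ closure ((Submodule.map (endEv 𝔄 v) (LinearMap.ker χ.toLinearMap) :
      Submodule ℂ H) : Set H) := by
    rw [← Submodule.topologicalClosure_coe]
    exact hx
  have h2 : S x ∈ closure ((endR χ v : Submodule ℂ H) : Set H) := by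
    refine map_mem_closure S.continuous h1 fun y hy => ?_
    obtain ⟨M, hM, rfl⟩ := hy
    have h3 : χ M = 0 := hM
    have h4 : χ (⟨S, hS⟩ * M) = 0 := by rw [map_mul, h3, mul_zero]
    exact endR_mem χ v (M := S * M.1) (mul_mem hS M.2) h4
  rw [hcl.closure_eq] at h2
  exact h2

theorem endR_le (χ : 𝔄 →ₐ[ℂ] ℂ) (v : H) : endR χ v ≤ cyc 𝔄 v := by
  refine Submodule.topologicalClosure_minimal _ ?_ (cyc_CI v).1
  rintro _ ⟨M, -, rfl⟩
  exact mem_cyc_of_mem M.2 v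

/-- Pythagoras -/
theorem end_pyth {R : Submodule ℂ H} {a b : H} (ha : a ∈ R) (hb : b ∈ Rᗮ) : ‖a‖ ≤ ‖a + b‖ := by
  have h1 := norm_add_sq_eq_norm_sq_add_norm_sq_of_inner_eq_zero (𝕜 := ℂ) a b (hb a ha)
  nlinarith [norm_nonneg a, norm_nonneg b, norm_nonneg (a + b)]

end

theorem end_of (h : ChiStm) : EndStm := by
  intro H _ _ _ 𝔄 h𝔄 z v ε hε hv0 hvz hF
  have hKv : CI 𝔄 (cyc 𝔄 v) := cyc_CI v
  have hKne : cyc 𝔄 v ≠ ⊥ := by
    intro hcon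
    have h1 : v ∈ cyc 𝔄 v := mem_cyc_self v
    rw [hcon] at h1
    exact hv0 ((Submodule.mem_bot ℂ).1 h1)
  obtain ⟨χ, hχ⟩ := h H 𝔄 h𝔄.comm (cyc 𝔄 v) hKv hKne
  set R := endR χ v with hR
  have hRCI : CI 𝔄 R := endR_CI χ v
  have hRo : CI 𝔄 Rᗮ := hRCI.orth h𝔄
  have hRK : R ≤ cyc 𝔄 v := endR_le χ v
  have hKz : cyc 𝔄 v ≤ cyc 𝔄 z := cyc_le (cyc_CI z) hvz
  -- the claim
  have hclaim : v ∉ R := by
    intro hvR
    obtain ⟨zR, hzR, z', hz', hz, -⟩ := hRCI.decomp z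
    obtain ⟨M, hM, hχM, hMε⟩ := endR_dense χ v hzR hε
    have hMR : M v ∈ R := endR_mem χ v hM hχM
    have hwz : M v + z' ∈ cyc 𝔄 z := by
      have h1 : z' = z - zR := by rw [hz]; abel
      rw [h1]
      exact add_mem (hKz (hRK hMR)) (sub_mem (mem_cyc_self z) (hKz (hRK hzR)))
    have hwε : ‖(M v + z') - z‖ < ε := by
      have h1 : (M v + z') - z = M v - zR := by rw [hz]; abel
      rw [h1]
      exact hMε
    obtain ⟨F, hFA, hFw, hFc⟩ := hF _ hwz hwε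
    -- `F n (M v) → v`
    have hlim : Tendsto (fun n => F n (M v)) atTop (𝓝 v) := by
      rw [tendsto_iff_norm_sub_tendsto_zero] at hFw ⊢
      refine squeeze_zero (fun n => norm_nonneg _) (fun n => ?_) hFw
      have h1 : F n (M v + z') - v = (F n (M v) - v) + F n z' := by
        rw [map_add]
        abel
      rw [h1]
      exact end_pyth (sub_mem (hRCI.2 _ (hFA n) _ hMR) hvR) (hRo.2 _ (hFA n) _ hz')
    have hη : 0 < 1 / (2 * (‖M‖ + 1)) := by positivity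
    obtain ⟨N, hN⟩ := hFc _ hη
    have hηM : 1 / (2 * (‖M‖ + 1)) * ‖M‖ ≤ 1 / 2 := by
      rw [one_div, inv_mul_le_iff₀ (by positivity)]
      linarith
    -- the estimate on `𝔄 v`
    have hest : ∀ S ∈ 𝔄, ‖S v - F N (M (S v))‖ ≤ 1 / 2 * ‖S v‖ := by
      intro S hS
      have hSM : M (S v) ∈ cyc 𝔄 v := hKv.2 M hM _ (mem_cyc_of_mem hS v)
      have h1 : ∀ m, N ≤ m → ‖S v - F N (M (S v))‖ ≤ 1 / 2 * ‖S v‖ + ‖S v - S (F m (M v))‖ := by
        intro m hm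
        have h2 : F m (M (S v)) = S (F m (M v)) := by
          rw [comm_apply h𝔄 hM hS, comm_apply h𝔄 (hFA m) hS]
        have h3 : S v - F N (M (S v)) = (F m (M (S v)) - F N (M (S v))) + (S v - S (F m (M v))) := by
          rw [h2]
          abel
        rw [h3]
        refine (norm_add_le _ _).trans (add_le_add ?_ le_rfl)
        refine (hN m hm N le_rfl _ hSM).trans ?_
        have h4 : ‖M (S v)‖ ≤ ‖M‖ * ‖S v‖ := M.le_opNorm _
        calc 1 / (2 * (‖M‖ + 1)) * ‖M (S v)‖ ≤ 1 / (2 * (‖M‖ + 1)) * (‖M‖ * ‖S v‖) :=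
              mul_le_mul_of_nonneg_left h4 hη.le
          _ = 1 / (2 * (‖M‖ + 1)) * ‖M‖ * ‖S v‖ := by ring
          _ ≤ 1 / 2 * ‖S v‖ := mul_le_mul_of_nonneg_right hηM (norm_nonneg _)
      have h2 : Tendsto (fun m => 1 / 2 * ‖S v‖ + ‖S v - S (F m (M v))‖) atTop
          (𝓝 (1 / 2 * ‖S v‖ + ‖S v - S v‖)) :=
        tendsto_const_nhds.add (tendsto_const_nhds.sub ((S.continuous.tendsto v).comp hlim)).norm
      rw [sub_self, norm_zero, add_zero] at h2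
      exact ge_of_tendsto h2 (eventually_atTop.2 ⟨N, h1⟩)
    have hest2 : ∀ x ∈ cyc 𝔄 v, ‖x - F N (M x)‖ ≤ 1 / 2 * ‖x‖ := by
      intro x hx
      obtain ⟨E, hE, hlimE⟩ := (mem_cyc_iff_seq v x).1 hx
      have h1 : Tendsto (fun n => ‖E n v - F N (M (E n v))‖) atTop (𝓝 ‖x - F N (M x)‖) :=
        (hlimE.sub (((F N).continuous.tendsto _).comp ((M.continuous.tendsto x).comp hlimE))).norm
      have h2 : Tendsto (fun n => 1 / 2 * ‖E n v‖) atTop (𝓝 (1 / 2 * ‖x‖)) :=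
        tendsto_const_nhds.mul hlimE.norm
      exact le_of_tendsto_of_tendsto' h1 h2 fun n => hest _ (hE n)
    have h1 := hχ (1 - ⟨F N, hFA N⟩ * ⟨M, hM⟩) (1 / 2) (by norm_num) (fun x hx => hest2 x hx)
    rw [map_sub, map_one, map_mul, hχM, mul_zero, sub_zero, norm_one] at h1
    norm_num at h1
  -- the eigenvector
  obtain ⟨a, ha, v1, hv1, hv, -⟩ := hRCI.decomp v
  have hv10 : v1 ≠ 0 := by
    rintro rfl
    apply hclaim
    rw [hv, add_zero]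
    exact ha
  refine ⟨v1, ?_, fun S hS => ⟨χ ⟨S, hS⟩, ?_⟩⟩
  · rw [hv, inner_add_left, hv1 a ha, zero_add]
    exact fun h1 => hv10 (inner_self_eq_zero.1 h1)
  · have hS' : S - (χ ⟨S, hS⟩) • (1 : H →L[ℂ] H) ∈ 𝔄 :=
      sub_mem hS (Subalgebra.smul_mem _ (one_mem _) _)
    have hχS' : χ ⟨S - (χ ⟨S, hS⟩) • (1 : H →L[ℂ] H), hS'⟩ = 0 := by
      have h1 : (⟨S - (χ ⟨S, hS⟩) • (1 : H →L[ℂ] H), hS'⟩ : 𝔄) =
          ⟨S, hS⟩ - (χ ⟨S, hS⟩) • (1 : 𝔄) := rfl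
      rw [h1, map_sub, map_smul, map_one, smul_eq_mul, mul_one, sub_self]
    set S' : H →L[ℂ] H := S - (χ ⟨S, hS⟩) • (1 : H →L[ℂ] H) with hS'def
    have h1 : S' v ∈ R := endR_mem χ v hS' hχS'
    have h2 : S' v + 0 = S' a + S' v1 := by
      rw [add_zero, ← map_add, ← hv]
    have h3 := (decomp_unique h1 (zero_mem _) (hRCI.2 _ hS' _ ha) (hRo.2 _ hS' _ hv1) h2).2
    have h4 : S' v1 = S v1 - (χ ⟨S, hS⟩) • v1 := rfl
    rw [h4] at h3
    exact sub_eq_zero.1 h3.symm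

end Pool.Agent.R402.RO
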