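import Pool.Agent.R402.RO.Stm

/-! Project RO, piece HOL: the holomorphic estimate (helper150). -/

set_option autoImplicit false
open scoped InnerProductSpace Topology
open Filter Set

namespace Pool.Agent.R402.RO

theorem hol : HolStm := by
  intro H _ _ _ E G R K ρ c hρ hc hEG hRE hRG hRR hEK hGK hRK hRn hRx
  have eEG : ∀ x, E (G x) = G (E x) := fun x => by
    simpa using congrArg (fun f : H →L[ℂ] H => f x) hEG
  have eRE : ∀ t x, R t (E x) = E (R t x) := fun t x => by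
    simpa using congrArg (fun f : H →L[ℂ] H => f x) (hRE t)
  have eRG : ∀ t x, R t (G x) = G (R t x) := fun t x => by
    simpa using congrArg (fun f : H →L[ℂ] H => f x) (hRG t)
  have eRR : ∀ s t x, R s (R t x) = R t (R s x) := fun s t x => by
    simpa using congrArg (fun f : H →L[ℂ] H => f x) (hRR s t)
  have hRle : ∀ t, t ≠ 0 → ‖t‖ < ρ → ∀ x, ‖R t x‖ ≤ c * ‖x‖ := fun t ht htρ x =>
    (R t).le_of_opNorm_le (hRn t ht htρ) x
  -- (1)
  have h1 : ∀ s t : ℂ, s ≠ 0 → ‖s‖ < ρ → t ≠ 0 → ‖t‖ < ρ → ∀ x ∈ K,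
      s⁻¹ • R s (G x) - t⁻¹ • R t (G x) = ((t - s) * s⁻¹ * t⁻¹) • R t (R s (E x)) := by
    intro s t hs hsρ ht htρ x hx
    have a := congrArg (fun y => t⁻¹ • R s y) (hRx t ht htρ x hx)
    have b := congrArg (fun y => s⁻¹ • R t y) (hRx s hs hsρ x hx)
    simp only [map_add, map_smul, smul_smul, inv_mul_cancel₀ ht, inv_mul_cancel₀ hs,
      one_smul] at a b
    rw [← a, ← b, eRR s t x, eRR s t (E x)]
    module
  -- (2)
  have h2 : ∀ u ∈ K, ∀ t : ℂ, t ≠ 0 → ‖t‖ < ρ →
      HasDerivAt (fun s : ℂ => s⁻¹ • R s (G (G u))) (-(t⁻¹ • R t (E (t⁻¹ • R t (G u))))) t := by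
    intro u hu t ht htρ
    have hev : ∀ᶠ s in 𝓝 t, s ≠ 0 ∧ ‖s‖ < ρ := by
      refine (eventually_ne_nhds ht).and ?_
      exact (continuous_norm.tendsto t).eventually (gt_mem_nhds htρ)
    have hcont : Tendsto (fun s : ℂ => s⁻¹ • R s (G u)) (𝓝 t) (𝓝 (t⁻¹ • R t (G u))) := by
      rw [tendsto_iff_norm_sub_tendsto_zero]
      have hlim : Tendsto (fun s : ℂ => ‖(t - s) * s⁻¹ * t⁻¹‖ * (c * (c * ‖E u‖))) (𝓝 t)
          (𝓝 (‖(t - t) * t⁻¹ * t⁻¹‖ * (c * (c * ‖E u‖)))) := by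
        have : ContinuousAt (fun s : ℂ => ‖(t - s) * s⁻¹ * t⁻¹‖ * (c * (c * ‖E u‖))) t := by
          have h3 : ContinuousAt (fun s : ℂ => (t - s) * s⁻¹ * t⁻¹) t :=
            ((continuousAt_const.sub continuousAt_id).mul (continuousAt_inv₀ ht)).mul
              continuousAt_const
          exact h3.norm.mul continuousAt_const
        exact this
      rw [sub_self, zero_mul, zero_mul, norm_zero, zero_mul] at hlim
      refine squeeze_zero' (Eventually.of_forall fun _ => norm_nonneg _) ?_ hlim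
      filter_upwards [hev] with s hs
      rw [h1 s t hs.1 hs.2 ht htρ u hu, norm_smul]
      refine mul_le_mul_of_nonneg_left ?_ (norm_nonneg _)
      refine (hRle t ht htρ _).trans (mul_le_mul_of_nonneg_left ?_ hc)
      exact hRle s hs.1 hs.2 _
    rw [hasDerivAt_iff_tendsto_slope]
    have hlim2 : Tendsto (fun s : ℂ => -(t⁻¹ • R t (E (s⁻¹ • R s (G u))))) (𝓝[≠] t)
        (𝓝 (-(t⁻¹ • R t (E (t⁻¹ • R t (G u)))))) := by
      have h4 : Continuous fun y : H => -(t⁻¹ • R t (E y)) := by fun_prop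
      exact ((h4.tendsto _).comp hcont).mono_left nhdsWithin_le_nhds
    refine hlim2.congr' ?_
    filter_upwards [self_mem_nhdsWithin, hev.filter_mono nhdsWithin_le_nhds] with s hst hs
    have hst' : s - t ≠ 0 := sub_ne_zero.2 hst
    rw [slope_def_module, h1 s t hs.1 hs.2 ht htρ (G u) (hGK u hu), eRE s (G u)]
    rw [show E (s⁻¹ • R s (G u)) = s⁻¹ • E (R s (G u)) by rw [map_smul], map_smul, smul_smul,
      smul_smul, ← neg_smul]
    congr 1
    field_simp
    ring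
  -- (4)
  have h4 : ∀ u ∈ K, ∀ t : ℂ, t ≠ 0 → ‖t‖ < ρ →
      ‖t⁻¹ • R t (G (G u))‖ ≤ c * ‖G (G u)‖ / ρ := by
    intro u hu t ht htρ
    set h : ℂ → H := fun s => s • (s⁻¹ • R s (G (G u))) with hh
    have hne : ∀ s : ℂ, s ≠ 0 → h s = R s (G (G u)) := by
      intro s hs
      simp [hh, smul_smul, mul_inv_cancel₀ hs]
    have h0 : h 0 = 0 := by simp [hh]
    have hbound : ∀ s : ℂ, ‖s‖ < ρ → ‖h s‖ ≤ c * ‖G (G u)‖ := by
      intro s hs
      by_cases hs0 : s = 0
      · rw [hs0, h0, norm_zero]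
        positivity
      · rw [hne s hs0]
        exact hRle s hs0 hs _
    have hsmall : ∀ s : ℂ, ‖s‖ < ρ → ‖h s‖ ≤ ‖s‖ * (‖G (G (G u))‖ + c * ‖E (G (G u))‖) := by
      intro s hs
      by_cases hs0 : s = 0
      · rw [hs0, h0, norm_zero, norm_zero, zero_mul]
      · rw [hne s hs0]
        have e1 := hRx s hs0 hs (G (G u)) (hGK _ (hGK _ hu))
        have e2 : R s (G (G u)) = s • (G (G (G u)) - R s (E (G (G u)))) := by
          rw [smul_sub, ← e1, map_add, map_smul]
          abel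
        rw [e2, norm_smul]
        refine mul_le_mul_of_nonneg_left ?_ (norm_nonneg _)
        refine (norm_sub_le _ _).trans (add_le_add le_rfl ?_)
        exact hRle s hs0 hs _
    have hcont0 : ContinuousAt h 0 := by
      unfold ContinuousAt
      rw [h0]
      rw [tendsto_zero_iff_norm_tendsto_zero]
      have hlim : Tendsto (fun s : ℂ => ‖s‖ * (‖G (G (G u))‖ + c * ‖E (G (G u))‖)) (𝓝 0) (𝓝 0) := by
        have : Continuous fun s : ℂ => ‖s‖ * (‖G (G (G u))‖ + c * ‖E (G (G u))‖) := by fun_prop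
        have h5 := this.tendsto 0
        simpa using h5
      refine squeeze_zero' (Eventually.of_forall fun _ => norm_nonneg _) ?_ hlim
      filter_upwards [Metric.ball_mem_nhds (0 : ℂ) hρ] with s hs
      exact hsmall s (by simpa using hs)
    have hdiff : DifferentiableOn ℂ h (Metric.ball 0 ρ) := by
      refine (Complex.differentiableOn_compl_singleton_and_continuousAt_iff
        (Metric.ball_mem_nhds (0 : ℂ) hρ)).1 ⟨?_, hcont0⟩
      rintro s ⟨hs, hs0⟩
      have hs' : ‖s‖ < ρ := by simpa using hs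
      have hs0' : s ≠ 0 := hs0
      exact ((hasDerivAt_id s).smul (h2 u hu s hs0' hs')).differentiableAt.differentiableWithinAt
    have hmaps : MapsTo h (Metric.ball 0 ρ) (Metric.closedBall (h 0) (c * ‖G (G u)‖)) := by
      intro s hs
      rw [h0, mem_closedBall_zero_iff]
      exact hbound s (by simpa using hs)
    have h6 := Complex.dist_le_div_mul_dist_of_mapsTo_ball hdiff hmaps
      (z := t) (by simpa using htρ)
    rw [h0, dist_zero_right, dist_zero_right, hne t ht] at h6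
    rw [norm_smul, norm_inv, inv_mul_le_iff₀ (norm_pos_iff.2 ht)]
    linarith [h6, mul_comm (c * ‖G (G u)‖ / ρ) ‖t‖]
  -- (5)
  intro u hu
  have h5 : ∀ t : ℂ, t ≠ 0 → ‖t‖ < ρ →
      ‖G (G (G u))‖ ≤ c * ‖G (G u)‖ / ρ + ‖t‖ * (c * ‖G (G (E u))‖ / ρ) := by
    intro t ht htρ
    have e1 := hRx t ht htρ (G (G u)) (hGK _ (hGK _ hu))
    have e2 : E (G (G u)) = G (G (E u)) := by rw [eEG, eEG]
    have e3 : G (G (G u)) = t⁻¹ • R t (G (G u)) + t • (t⁻¹ • R t (G (G (E u)))) := by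
      have e4 := congrArg (fun y => t⁻¹ • y) e1
      simp only [map_add, map_smul, smul_add, smul_smul, inv_mul_cancel₀ ht, one_smul] at e4
      rw [← e4, e2, smul_smul, mul_inv_cancel₀ ht, one_smul]
    rw [e3]
    refine (norm_add_le _ _).trans (add_le_add (h4 u hu t ht htρ) ?_)
    rw [norm_smul]
    exact mul_le_mul_of_nonneg_left (h4 (E u) (hEK u hu) t ht htρ) (norm_nonneg _)
  have h7 : Tendsto (fun t : ℂ => c * ‖G (G u)‖ / ρ + ‖t‖ * (c * ‖G (G (E u))‖ / ρ)) (𝓝[≠] 0)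
      (𝓝 (c * ‖G (G u)‖ / ρ)) := by
    have : Continuous fun t : ℂ => c * ‖G (G u)‖ / ρ + ‖t‖ * (c * ‖G (G (E u))‖ / ρ) := by
      fun_prop
    have h8 := this.tendsto 0
    simp only [norm_zero, zero_mul, add_zero] at h8
    exact h8.mono_left nhdsWithin_le_nhds
  have h9 : ‖G (G (G u))‖ ≤ c * ‖G (G u)‖ / ρ := by
    refine ge_of_tendsto h7 ?_
    have hball : ∀ᶠ t : ℂ in 𝓝[≠] 0, t ∈ Metric.ball (0 : ℂ) ρ :=
      nhdsWithin_le_nhds (Metric.ball_mem_nhds _ hρ)
    filter_upwards [self_mem_nhdsWithin, hball] with t ht htb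
    exact h5 t ht (by simpa using htb)
  calc ‖G (G (G u))‖ ≤ c * ‖G (G u)‖ / ρ := h9
    _ = c / ρ * ‖G (G u)‖ := by ring

end Pool.Agent.R402.RO
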