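import Pool.Agent.R402.RO.Stm

/-! Project RO, piece LOC. -/

set_option autoImplicit false
open scoped InnerProductSpace Topology
open Filter Set

namespace Pool.Agent.R402.RO

theorem loc_of (h1 : HolStm) (h2 : NilStm) : LocStm := by
  intro H _ _ _ 𝔄 h𝔄 R w δ k hδ hk hS
  obtain ⟨B, hB, hBk, hBw⟩ := hS w (by rwa [sub_self, norm_zero])
  refine ⟨B, hB, fun E hE => ?_⟩
  by_cases hEw : E w = 0
  · refine ⟨0, zero_mem _, ?_, fun x _ => ?_⟩
    · rw [hEw, map_zero, map_zero, sub_zero]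
      rfl
    · rw [hEw, norm_zero, mul_zero, zero_mul]
      exact (norm_zero (E := H)).le
  · have hn : 0 < ‖E w‖ := norm_pos_iff.2 hEw
    set ρ : ℝ := δ / ‖E w‖ with hρ
    have hρ0 : 0 < ρ := div_pos hδ hn
    have hR : ∀ t : ℂ, ∃ R' ∈ 𝔄, ‖t‖ < ρ →
        ‖R'‖ ≤ 2 * k ∧ R' (w + t • E w) = t • (R (E w) - B (E w)) := by
      intro t
      by_cases ht : ‖t‖ < ρ
      · obtain ⟨S, hS1, hS2, hS3⟩ := hS (w + t • E w) (by
          rw [add_sub_cancel_left, norm_smul]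
          rwa [hρ, lt_div_iff₀ hn] at ht)
        refine ⟨S - B, sub_mem hS1 hB, fun _ => ⟨?_, ?_⟩⟩
        · have := norm_sub_le S B
          linarith
        · have e : (S - B) (w + t • E w) = S (w + t • E w) - B (w + t • E w) := rfl
          rw [e, hS3, map_add, map_add, map_smul, map_smul, hBw, smul_sub]
          abel
      · exact ⟨0, zero_mem _, fun h => absurd h ht⟩
    choose R' hR1 hR2 using hR
    set t₀ : ℂ := ((ρ / 2 : ℝ) : ℂ) with ht₀
    have hn0 : ‖t₀‖ = ρ / 2 := by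
      rw [ht₀, Complex.norm_real, Real.norm_eq_abs, abs_of_pos (by linarith)]
    have ht₀0 : t₀ ≠ 0 := by
      rw [← norm_pos_iff, hn0]
      linarith
    set G : H →L[ℂ] H := t₀⁻¹ • (R' t₀ * (1 + t₀ • E)) with hG
    have hGm : G ∈ 𝔄 := 𝔄.smul_mem
      (mul_mem (hR1 t₀) (add_mem (one_mem 𝔄) (𝔄.smul_mem hE _))) _
    have hap : ∀ (t : ℂ) (x : H), (R' t * (1 + t • E)) x = R' t (x + t • E x) := fun t x => rfl
    have hGw : G w = R (E w) - B (E w) := by
      have e : G w = t₀⁻¹ • ((R' t₀ * (1 + t₀ • E)) w) := rfl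
      rw [e, hap, (hR2 t₀ (by rw [hn0]; linarith)).2, smul_smul, inv_mul_cancel₀ ht₀0, one_smul]
    refine ⟨G, hGm, hGw, ?_⟩
    have hinv : ∀ S ∈ 𝔄, ∀ x ∈ (cyc 𝔄 w : Set H), S x ∈ (cyc 𝔄 w : Set H) :=
      fun S hS x hx => (cyc_CI w).2 S hS x hx
    have key := h1 H E G R' (cyc 𝔄 w : Set H) ρ (2 * k) hρ0 (by linarith)
      (h𝔄.comm E hE G hGm) (fun t => h𝔄.comm _ (hR1 t) E hE) (fun t => h𝔄.comm _ (hR1 t) G hGm)
      (fun s t => h𝔄.comm _ (hR1 s) _ (hR1 t)) (hinv E hE) (hinv G hGm)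
      (fun t => hinv _ (hR1 t)) (fun t _ ht => (hR2 t ht).1) (fun t _ ht x hx => by
        have h3 : (R' t * (1 + t • E)) w = (t • G) w := by
          have e : (t • G) w = t • G w := rfl
          rw [hap, (hR2 t ht).2, e, hGw]
        have h4 := eq_on_cyc h𝔄 (mul_mem (hR1 t) (add_mem (one_mem 𝔄) (𝔄.smul_mem hE _)))
          (𝔄.smul_mem hGm t) h3 hx
        exact h4)
    have h5 := h2 H 𝔄 h𝔄 (cyc 𝔄 w) (cyc_CI w) G hGm (2 * k / ρ) (by positivity) key
    have e : 2 * k / δ * ‖E w‖ = 2 * k / ρ := by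
      rw [hρ]
      field_simp
    intro x hx
    rw [e]
    exact h5 x hx

end Pool.Agent.R402.RO
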