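import Pool.Agent.R402.RO.Stm

/-! The orthogonalization step of project RO (helper402). -/

set_option autoImplicit false
set_option linter.unusedSectionVars false
open scoped InnerProductSpace Topology
open Filter Set

namespace Pool.Agent.R402.RO

variable {H : Type} [NormedAddCommGroup H] [InnerProductSpace ℂ H] [CompleteSpace H]
variable {𝔄 : Subalgebra ℂ (H →L[ℂ] H)}

/-- vectors on which every `S ∈ 𝔄` that agrees with `R` at `w` agrees with `R` -/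
def agr (𝔄 : Subalgebra ℂ (H →L[ℂ] H)) (R : H →L[ℂ] H) (w : H) : Submodule ℂ H where
  carrier := {x | ∀ S ∈ 𝔄, S w = R w → S x = R x}
  add_mem' := by
    intro a b ha hb S hS h
    rw [map_add, map_add, ha S hS h, hb S hS h]
  zero_mem' := by
    intro S hS h
    simp
  smul_mem' := by
    intro c x hx S hS h
    rw [map_smul, map_smul, hx S hS h]

theorem agr_self (R : H →L[ℂ] H) (w : H) : w ∈ agr 𝔄 R w := fun _ _ h => h

theorem agr_CI (h𝔄 : Red 𝔄) {R : H →L[ℂ] H} (hR : ∀ D ∈ 𝔄, R * D = D * R) (w : H) :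
    CI 𝔄 (agr 𝔄 R w) := by
  constructor
  · have : ((agr 𝔄 R w : Submodule ℂ H) : Set H)
        = ⋂ (S : H →L[ℂ] H) (_ : S ∈ 𝔄) (_ : S w = R w), {x | S x = R x} := by
      ext x
      simp only [Set.mem_iInter, Set.mem_setOf_eq]
      rfl
    rw [this]
    refine isClosed_iInter fun S => isClosed_iInter fun _ => isClosed_iInter fun _ => ?_
    exact isClosed_eq S.continuous R.continuous
  · intro D hD v hv S hS h
    have h1 : R (D v) = D (R v) := by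
      have := congrArg (fun f : H →L[ℂ] H => f v) (hR D hD)
      simpa using this
    rw [h1, comm_apply h𝔄 hS hD, hv S hS h]

theorem agr_step (h𝔄 : Red 𝔄) {R : H →L[ℂ] H} (hR : ∀ D ∈ 𝔄, R * D = D * R)
    (hRinv : ∀ M, CI 𝔄 M → ∀ v ∈ M, R v ∈ M) (z0 : H) (δ0 : ℝ) (w0 : H)
    (hw0 : ‖w0 - z0‖ < δ0) (x : H) :
    ∃ w : H, ‖w - z0‖ < δ0 ∧ agr 𝔄 R w0 ≤ agr 𝔄 R w ∧ x ∈ agr 𝔄 R w := by
  have hM := agr_CI h𝔄 hR w0
  obtain ⟨a, ha, b, hb, hxab, -⟩ := hM.decomp x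
  set t : ℝ := (δ0 - ‖w0 - z0‖) / (2 * (‖b‖ + 1)) with ht
  have htpos : 0 < t := by
    rw [ht]
    have : 0 < δ0 - ‖w0 - z0‖ := by linarith
    positivity
  have key : ∀ S ∈ 𝔄, S (w0 + ((t : ℝ) : ℂ) • b) = R (w0 + ((t : ℝ) : ℂ) • b) →
      S w0 = R w0 ∧ S b = R b := by
    intro S hS h
    rw [map_add, map_add] at h
    have hMo := hM.orth h𝔄
    have h2 := decomp_unique (M := agr 𝔄 R w0) (hM.2 S hS _ (agr_self R w0))
      (hMo.2 S hS _ (Submodule.smul_mem _ ((t : ℝ) : ℂ) hb)) (hRinv _ hM _ (agr_self R w0))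
      (hRinv _ hMo _ (Submodule.smul_mem _ ((t : ℝ) : ℂ) hb)) h
    refine ⟨h2.1, ?_⟩
    have h3 := h2.2
    rw [map_smul, map_smul] at h3
    have ht0 : ((t : ℝ) : ℂ) ≠ 0 := by exact_mod_cast htpos.ne'
    exact smul_right_injective H ht0 h3
  refine ⟨w0 + ((t : ℝ) : ℂ) • b, ?_, ?_, ?_⟩
  · have h1 : ‖((t : ℝ) : ℂ) • b‖ < δ0 - ‖w0 - z0‖ := by
      rw [norm_smul, Complex.norm_real, Real.norm_of_nonneg htpos.le, ht, div_mul_eq_mul_div,
        div_lt_iff₀ (by positivity)]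
      have : 0 < δ0 - ‖w0 - z0‖ := by linarith
      nlinarith [norm_nonneg b]
    calc ‖w0 + ((t : ℝ) : ℂ) • b - z0‖ = ‖(w0 - z0) + ((t : ℝ) : ℂ) • b‖ := by congr 1; abel
      _ ≤ ‖w0 - z0‖ + ‖((t : ℝ) : ℂ) • b‖ := norm_add_le _ _
      _ < δ0 := by linarith
  · intro u hu S hS h
    exact hu S hS (key S hS h).1
  · intro S hS h
    obtain ⟨h1, h2⟩ := key S hS h
    rw [hxab, map_add, map_add, ha S hS h1, h2]

theorem agr_fin (h𝔄 : Red 𝔄) {R : H →L[ℂ] H} (hR : ∀ D ∈ 𝔄, R * D = D * R)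
    (hRinv : ∀ M, CI 𝔄 M → ∀ v ∈ M, R v ∈ M) (z0 : H) (δ0 : ℝ) (hδ0 : 0 < δ0) :
    ∀ (n : ℕ) (x : Fin n → H), ∃ w : H, ‖w - z0‖ < δ0 ∧ ∀ i, x i ∈ agr 𝔄 R w := by
  intro n
  induction n with
  | zero => exact fun x => ⟨z0, by simpa using hδ0, fun i => i.elim0⟩
  | succ n ih =>
    intro x
    obtain ⟨w0, hw0, hx⟩ := ih (fun i => x i.castSucc)
    obtain ⟨w, hw, hle, hxw⟩ := agr_step h𝔄 hR hRinv z0 δ0 w0 hw0 (x (Fin.last n))
    refine ⟨w, hw, fun i => ?_⟩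
    refine Fin.lastCases ?_ (fun j => ?_) i
    · exact hxw
    · exact hle (hx j)

/-- if `R` commutes with `𝔄`, leaves the closed invariant subspaces invariant and `R x ∈ 𝔄 x` on a
ball, then `R ∈ 𝔄` -/
theorem refl_of (h𝔄 : Red 𝔄) (R : H →L[ℂ] H) (hR : ∀ D ∈ 𝔄, R * D = D * R)
    (hRinv : ∀ M, CI 𝔄 M → ∀ v ∈ M, R v ∈ M) (z0 : H) (δ0 : ℝ) (hδ0 : 0 < δ0)
    (hball : ∀ x : H, ‖x - z0‖ < δ0 → ∃ S ∈ 𝔄, S x = R x) : R ∈ 𝔄 := by
  apply h𝔄.wot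
  intro n x y ε hε
  obtain ⟨w, hw, hx⟩ := agr_fin h𝔄 hR hRinv z0 δ0 hδ0 n x
  obtain ⟨S, hS, hSw⟩ := hball w hw
  refine ⟨S, hS, fun i => ?_⟩
  have h1 : S (x i) = R (x i) := hx i S hS hSw
  have h2 : (R - S) (x i) = 0 := by
    change R (x i) - S (x i) = 0
    rw [h1, sub_self]
  rw [h2, inner_zero_left, norm_zero]
  exact hε

end Pool.Agent.R402.RO
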