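import Pool.Agent.R402.RO.Bic
import Pool.Agent.R402.RO.Ref

/-! Assembly of project RO (helper402). -/

set_option autoImplicit false
set_option linter.unusedSectionVars false
open scoped InnerProductSpace Topology
open Filter Set

namespace Pool.Agent.R402.RO

variable {H : Type} [NormedAddCommGroup H] [InnerProductSpace ℂ H] [CompleteSpace H]

/-- first step: `R` commutes with `𝔄` -/
theorem comm_of (hQ : QLocStm) (hSeq : SeqStm) (hBd : BdStm) (hVe : VepsStm)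
    (hEnd : EndStm) (𝔄 : Subalgebra ℂ (H →L[ℂ] H)) (hRed : Red 𝔄) (R : H →L[ℂ] H)
    (hRinv : ∀ M, CI 𝔄 M → ∀ v ∈ M, R v ∈ M) (z0 : H) (δ0 k : ℝ) (hδ0 : 0 < δ0) (hk : 0 < k)
    (hball : ∀ x : H, ‖x - z0‖ < δ0 → ∃ S ∈ 𝔄, ‖S‖ ≤ k ∧ S x = R x)
    (D : H →L[ℂ] H) (hD : D ∈ 𝔄) : R * D = D * R := by
  by_contra hne
  set Q : H →L[ℂ] H := R * D - D * R with hQdef
  have hQne : Q ≠ 0 := fun h => hne (sub_eq_zero.1 h)
  have hQapp : ∀ x, Q x = R (D x) - D (R x) := fun x => by simp [hQdef]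
  have hadj : ∀ (A : H →L[ℂ] H) (x y : H), ⟪(star A) x, y⟫_ℂ = ⟪x, A y⟫_ℂ := fun A x y => by
    rw [ContinuousLinearMap.star_eq_adjoint, ContinuousLinearMap.adjoint_inner_left]
  have hadj' : ∀ (A : H →L[ℂ] H) (x y : H), ⟪x, (star A) y⟫_ℂ = ⟪A x, y⟫_ℂ := fun A x y => by
    rw [ContinuousLinearMap.star_eq_adjoint, ContinuousLinearMap.adjoint_inner_right]
  have hstar : ∀ A : H →L[ℂ] H, (∀ M, CI 𝔄 M → ∀ v ∈ M, A v ∈ M) →
      ∀ M, CI 𝔄 M → ∀ v ∈ M, (star A) v ∈ M := by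
    intro A hA M hM v hv
    haveI : CompleteSpace M := hM.1.isComplete.completeSpace_coe
    have h3 : (star A) v ∈ Mᗮᗮ := by
      rw [Submodule.mem_orthogonal]
      intro u hu
      rw [hadj']
      have h4 := hA _ (hM.orth hRed) u hu
      rw [Submodule.mem_orthogonal] at h4
      rw [← inner_conj_symm, h4 v hv, map_zero]
    rwa [Submodule.orthogonal_orthogonal] at h3
  have hQinv : ∀ M, CI 𝔄 M → ∀ v ∈ M, Q v ∈ M := by
    intro M hM v hv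
    rw [hQapp]
    exact sub_mem (hRinv M hM _ (hM.2 D hD v hv)) (hM.2 D hD _ (hRinv M hM v hv))
  have hQsinv := hstar Q hQinv
  have hRsinv := hstar R hRinv
  -- the symmetric operator `Q* Q`
  set P : H →L[ℂ] H := star Q * Q with hPdef
  have hPapp : ∀ x, P x = (star Q) (Q x) := fun x => by simp [hPdef]
  have hsymm : ∀ x y : H, ⟪P x, y⟫_ℂ = ⟪x, P y⟫_ℂ := by
    intro x y
    rw [hPapp, hPapp, hadj, hadj']
  have hPinv : ∀ M, CI 𝔄 M → ∀ v ∈ M, P v ∈ M := by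
    intro M hM v hv
    rw [hPapp]
    exact hQsinv M hM _ (hQinv M hM v hv)
  have hPne : ∀ x, Q x ≠ 0 → P x ≠ 0 := by
    intro x hx h
    apply hx
    have h1 : ⟪P x, x⟫_ℂ = 0 := by rw [h, inner_zero_left]
    rw [hPapp, hadj] at h1
    exact inner_self_eq_zero.1 h1
  -- a point of the ball where Q does not vanish
  have hz : ∃ z : H, ‖z - z0‖ < δ0 ∧ Q z ≠ 0 := by
    by_contra hcon
    push Not at hcon
    apply hQne
    ext u
    have h0 : Q z0 = 0 := hcon z0 (by simpa using hδ0)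
    have hs : 0 < δ0 / (2 * (‖u‖ + 1)) := by positivity
    have h1 : Q (z0 + ((δ0 / (2 * (‖u‖ + 1)) : ℝ) : ℂ) • u) = 0 := by
      apply hcon
      rw [add_sub_cancel_left, norm_smul, Complex.norm_real, Real.norm_of_nonneg hs.le]
      rw [div_mul_eq_mul_div, div_lt_iff₀ (by positivity)]
      nlinarith [norm_nonneg u]
    rw [map_add, h0, zero_add, map_smul, smul_eq_zero] at h1
    rcases h1 with h1 | h1
    · exact absurd (by exact_mod_cast h1) hs.ne'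
    · simpa using h1
  obtain ⟨z, hzb, hQz⟩ := hz
  set δ : ℝ := (δ0 - ‖z - z0‖) / 2 with hδdef
  have hδ : 0 < δ := by rw [hδdef]; linarith
  set c : ℝ := 4 * k / δ * ‖D‖ with hcdef
  have hc : 0 ≤ c := by positivity
  have hGood : ∀ w : H, ‖w - z‖ < δ → Good 𝔄 Q c w := by
    intro w hw
    refine hQ H 𝔄 hRed R D hD w δ k hδ hk ?_
    intro x hx
    apply hball
    have h1 : ‖x - z0‖ ≤ ‖x - w‖ + ‖w - z‖ + ‖z - z0‖ := by
      calc ‖x - z0‖ = ‖(x - w) + (w - z) + (z - z0)‖ := by congr 1; abel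
        _ ≤ _ := norm_add₃_le
    have h2 : 2 * δ = δ0 - ‖z - z0‖ := by rw [hδdef]; ring
    linarith
  have hgz : Good 𝔄 Q c z := hGood z (by simpa using hδ)
  have hbd := hBd H 𝔄 hRed Q c hc hQinv z hgz
  have hbdP : ∀ M, CI 𝔄 M → M ≤ cyc 𝔄 z → ∀ a : ℝ, 0 ≤ a → (∀ x ∈ M, ‖⟪x, z⟫_ℂ‖ ≤ a * ‖x‖) →
      ∀ y ∈ M, ‖P y‖ ≤ (‖star Q‖ * c) * a * ‖y‖ := by
    intro M hM hle a ha hin y hy
    rw [hPapp]
    calc ‖(star Q) (Q y)‖ ≤ ‖star Q‖ * ‖Q y‖ := (star Q).le_opNorm _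
      _ ≤ ‖star Q‖ * (c * a * ‖y‖) :=
          mul_le_mul_of_nonneg_left (hbd M hM hle a ha hin y hy) (norm_nonneg _)
      _ = _ := by ring
  obtain ⟨ε, hε, y, hy, hPy, hyw⟩ := hVe H 𝔄 hRed P (‖star Q‖ * c) (by positivity) hsymm hPinv z
    hbdP ⟨z, mem_cyc_self z, hPne z hQz⟩
  have hQy : Q y ≠ 0 := by
    intro h
    apply hPy
    rw [hPapp, h, map_zero]
  have hv : Q y ∈ cyc 𝔄 z := hQinv _ (cyc_CI z) y hy
  obtain ⟨v1, hv1, heig⟩ := hEnd H 𝔄 hRed z (Q y) (min ε δ) (lt_min hε hδ) hQy hv (by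
    intro w hw hwz
    have hyw' := hyw w hw (lt_of_lt_of_le hwz (min_le_left _ _))
    obtain ⟨F, hF, hlim, hcau, -⟩ := hSeq H 𝔄 hRed Q c hc w
      (hGood w (lt_of_lt_of_le hwz (min_le_right _ _))) y hyw'
    refine ⟨F, hF, hlim, ?_⟩
    intro η hη
    obtain ⟨N, hN⟩ := hcau η hη
    refine ⟨N, fun m hm n hn x hx => hN m hm n hn x ?_⟩
    exact cyc_le (cyc_CI w) (hQinv _ (cyc_CI w) y hyw') hx)
  have hspanCI : CI 𝔄 (Submodule.span ℂ {v1}) := by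
    refine ⟨Submodule.closed_of_finiteDimensional _, ?_⟩
    intro S hS v hv
    obtain ⟨a, rfl⟩ := Submodule.mem_span_singleton.1 hv
    obtain ⟨μ, hμ⟩ := heig S hS
    rw [map_smul, hμ]
    exact Submodule.smul_mem _ _ (Submodule.smul_mem _ _ (Submodule.mem_span_singleton_self v1))
  have hself := Submodule.mem_span_singleton_self (R := ℂ) v1
  obtain ⟨μ, hμ⟩ := Submodule.mem_span_singleton.1 (hspanCI.star hRed hD hself)
  obtain ⟨ν, hν⟩ := Submodule.mem_span_singleton.1 (hRsinv _ hspanCI v1 hself)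
  apply hv1
  have hQs : star Q = star D * star R - star R * star D := by
    rw [hQdef, star_sub, star_mul, star_mul]
  have hQsv1 : (star Q) v1 = 0 := by
    rw [hQs]
    change (star D) ((star R) v1) - (star R) ((star D) v1) = 0
    rw [← hν, ← hμ, map_smul, map_smul, ← hν, ← hμ, smul_comm, sub_self]
  rw [← hadj', hQsv1, inner_zero_right]

/-- the main theorem from its pieces -/
theorem main_of (hBaire : BaireStm) (hQ : QLocStm) (hSeq : SeqStm) (hBd : BdStm) (hVe : VepsStm)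
    (hEnd : EndStm) (T R : H →L[ℂ] H)
    (hred : ∀ M : Submodule ℂ H, IsClosed (M : Set H) → (∀ v ∈ M, T v ∈ M) →
      (∀ v ∈ M, (star T) v ∈ M) ∧ ∀ v ∈ M, R v ∈ M)
    (hnm : ¬ IsMeagre {x : H | ∃ S : H →L[ℂ] H,
      (∀ C : H →L[ℂ] H, C * T = T * C → S * C = C * S) ∧ S x = R x}) :
    ∀ C : H →L[ℂ] H, C * T = T * C → R * C = C * R := by
  obtain ⟨𝔄, h𝔄eq, hRed⟩ : ∃ 𝔄 : Subalgebra ℂ (H →L[ℂ] H), 𝔄 = bic T ∧ Red 𝔄 :=
    ⟨bic T, rfl, red_bic T fun M hM h => (hred M hM h).1⟩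
  have hT𝔄 : T ∈ 𝔄 := by rw [h𝔄eq]; exact T_mem_bic T
  have hnm' : ¬ IsMeagre {x : H | ∃ S ∈ 𝔄, S x = R x} := by
    have : {x : H | ∃ S ∈ 𝔄, S x = R x} = {x : H | ∃ S : H →L[ℂ] H,
        (∀ C : H →L[ℂ] H, C * T = T * C → S * C = C * S) ∧ S x = R x} := by
      ext x
      constructor
      · rintro ⟨S, hS, h⟩
        rw [h𝔄eq] at hS
        exact ⟨S, mem_bic.1 hS, h⟩
      · rintro ⟨S, hS, h⟩
        refine ⟨S, ?_, h⟩
        rw [h𝔄eq]
        exact mem_bic.2 hS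
    rw [this]; exact hnm
  obtain ⟨z0, δ0, k, hδ0, hk, hball⟩ := hBaire H 𝔄 R hRed hnm'
  have hRinv : ∀ M, CI 𝔄 M → ∀ v ∈ M, R v ∈ M := fun M hM => (hred M hM.1 (hM.2 T hT𝔄)).2
  have hcomm := comm_of hQ hSeq hBd hVe hEnd 𝔄 hRed R hRinv z0 δ0 k hδ0 hk hball
  have hmem : R ∈ 𝔄 := refl_of hRed R hcomm hRinv z0 δ0 hδ0 fun x hx => by
    obtain ⟨S, hS, -, h⟩ := hball x hx
    exact ⟨S, hS, h⟩
  rw [h𝔄eq] at hmem
  exact mem_bic.1 hmem

end Pool.Agent.R402.RO
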