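import Pool.Agent.R402.RO.Stm

/-! NIL: reductivity removes the nilpotent part. -/

set_option autoImplicit false
open scoped InnerProductSpace Topology
open Filter Set

namespace Pool.Agent.R402.RO

theorem nil_a {H : Type} [NormedAddCommGroup H] [InnerProductSpace ℂ H] [CompleteSpace H]
    {𝔄 : Subalgebra ℂ (H →L[ℂ] H)} (h𝔄 : Red 𝔄) {G : H →L[ℂ] H} (hG : G ∈ 𝔄) {x : H}
    (hx : G (G x) = 0) : G x = 0 := by
  have hM : CI 𝔄 (LinearMap.ker (G : H →ₗ[ℂ] H)) := by
    refine ⟨G.isClosed_ker, ?_⟩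
    intro S hS v hv
    rw [LinearMap.mem_ker] at hv ⊢
    have hv' : G v = 0 := hv
    change G (S v) = 0
    rw [comm_apply h𝔄 hG hS, hv', map_zero]
  obtain ⟨a, ha, b, hb, hab, -⟩ := hM.decomp x
  have hGa : G a = 0 := ha
  have hGx : G x = G b := by rw [hab, map_add, hGa, zero_add]
  have h1 : G b ∈ (LinearMap.ker (G : H →ₗ[ℂ] H))ᗮ := (hM.orth h𝔄).2 G hG b hb
  have h2 : G b ∈ LinearMap.ker (G : H →ₗ[ℂ] H) := by
    rw [LinearMap.mem_ker]
    change G (G b) = 0
    rw [← hGx, hx]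
  have h3 : ⟪G b, G b⟫_ℂ = 0 := h1 _ h2
  rw [hGx]
  exact inner_self_eq_zero.1 h3

theorem nil : NilStm := by
  intro H _ _ _ 𝔄 h𝔄 K hK G hG C hC hGGG
  set L0 : Submodule ℂ H := Submodule.map ((G * G : H →L[ℂ] H) : H →ₗ[ℂ] H) K with hL0
  set L : Submodule ℂ H := L0.topologicalClosure with hLdef
  have hGG : ∀ u ∈ K, G (G u) ∈ L := by
    intro u hu
    exact Submodule.le_topologicalClosure _ ⟨u, hu, rfl⟩
  have hL : CI 𝔄 L := by
    refine ⟨Submodule.isClosed_topologicalClosure _, ?_⟩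
    intro S hS v hv
    have hv' : v ∈ closure (L0 : Set H) := by
      rw [← Submodule.topologicalClosure_coe]; exact hv
    have hmap : MapsTo S (L0 : Set H) (L0 : Set H) := by
      rintro _ ⟨u, hu, rfl⟩
      refine ⟨S u, hK.2 S hS u hu, ?_⟩
      change G (G (S u)) = S (G (G u))
      rw [comm_apply h𝔄 hG hS, comm_apply h𝔄 hG hS]
    have h1 : S v ∈ closure (L0 : Set H) := map_mem_closure S.continuous hv' hmap
    rw [← Submodule.topologicalClosure_coe] at h1
    exact h1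
  have hLK : L ≤ K := by
    refine Submodule.topologicalClosure_minimal _ ?_ hK.1
    rintro _ ⟨u, hu, rfl⟩
    exact hK.2 G hG _ (hK.2 G hG u hu)
  have hLC : ∀ a ∈ L, ‖G a‖ ≤ C * ‖a‖ := by
    intro a ha
    have ha' : a ∈ closure (L0 : Set H) := by
      rw [← Submodule.topologicalClosure_coe]; exact ha
    have hcl : IsClosed {a : H | ‖G a‖ ≤ C * ‖a‖} :=
      isClosed_le (G.continuous.norm) (continuous_const.mul continuous_norm)
    refine closure_minimal ?_ hcl ha'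
    rintro _ ⟨u, hu, rfl⟩
    exact hGGG u hu
  intro x hx
  obtain ⟨a, ha, b, hb, hab, hnorm⟩ := hL.decomp x
  have hbK : b ∈ K := by
    have : b = x - a := by rw [hab]; abel
    rw [this]
    exact sub_mem hx (hLK ha)
  have h1 : G (G b) ∈ L := hGG b hbK
  have hO := hL.orth h𝔄
  have h2 : G (G b) ∈ Lᗮ := hO.2 G hG _ (hO.2 G hG b hb)
  have h3 : ⟪G (G b), G (G b)⟫_ℂ = 0 := h2 _ h1
  have h4 : G b = 0 := nil_a h𝔄 hG (inner_self_eq_zero.1 h3)
  have h5 : G x = G a := by rw [hab, map_add, h4, add_zero]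
  rw [h5]
  have h6 : ‖a‖ ≤ ‖x‖ := by
    apply le_of_sq_le_sq _ (norm_nonneg x)
    nlinarith [sq_nonneg ‖b‖]
  exact (hLC a ha).trans (mul_le_mul_of_nonneg_left h6 hC)

end Pool.Agent.R402.RO
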