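import Pool.Agent.R402.RO.Stm

/-! Piece QLOC of project RO. -/

set_option autoImplicit false
open scoped InnerProductSpace Topology
open Filter Set

namespace Pool.Agent.R402.RO

theorem qloc_of (h : LocStm) : QLocStm := by
  intro H _ _ _ 𝔄 h𝔄 R D hD w δ k hδ hk hloc E hE
  obtain ⟨B, hB, hBE⟩ := h H 𝔄 h𝔄 R w δ k hδ hk hloc
  obtain ⟨G1, hG1, hG1w, hG1n⟩ := hBE (D * E) (mul_mem hD hE)
  obtain ⟨G2, hG2, hG2w, hG2n⟩ := hBE E hE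
  refine ⟨G1 - D * G2, sub_mem hG1 (mul_mem hD hG2), ?_, ?_⟩
  · have e1 : (G1 - D * G2) w = G1 w - D (G2 w) := rfl
    have e2 : (R * D - D * R) (E w) = R (D (E w)) - D (R (E w)) := rfl
    have e3 : (D * E) w = D (E w) := rfl
    have e4 : B (D (E w)) = D (B (E w)) := comm_apply h𝔄 hB hD (E w)
    rw [e1, e2, hG1w, hG2w, e3, map_sub, e4]
    abel
  · intro x hx
    have e1 : (G1 - D * G2) x = G1 x - D (G2 x) := rfl
    have e3 : (D * E) w = D (E w) := rfl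
    have h1 := hG1n x hx
    have h2 := hG2n x hx
    rw [e3] at h1
    have h3 : ‖D (E w)‖ ≤ ‖D‖ * ‖E w‖ := D.le_opNorm _
    have h4 : ‖D (G2 x)‖ ≤ ‖D‖ * ‖G2 x‖ := D.le_opNorm _
    have hc : 0 ≤ 2 * k / δ := by positivity
    have h5 : 2 * k / δ * ‖D (E w)‖ * ‖x‖ ≤ 2 * k / δ * (‖D‖ * ‖E w‖) * ‖x‖ :=
      mul_le_mul_of_nonneg_right (mul_le_mul_of_nonneg_left h3 hc) (norm_nonneg _)
    have h6 : ‖D‖ * ‖G2 x‖ ≤ ‖D‖ * (2 * k / δ * ‖E w‖ * ‖x‖) :=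
      mul_le_mul_of_nonneg_left h2 (norm_nonneg _)
    rw [e1]
    calc ‖G1 x - D (G2 x)‖ ≤ ‖G1 x‖ + ‖D (G2 x)‖ := norm_sub_le _ _
      _ ≤ 2 * k / δ * (‖D‖ * ‖E w‖) * ‖x‖ + ‖D‖ * (2 * k / δ * ‖E w‖ * ‖x‖) :=
          add_le_add (h1.trans h5) (h4.trans h6)
      _ = 4 * k / δ * ‖D‖ * ‖E w‖ * ‖x‖ := by ring

end Pool.Agent.R402.RO
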