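import Pool.Agent.R402.RO.Stm

/-! RO-SEQ (helper787) -/

set_option autoImplicit false
open scoped InnerProductSpace Topology
open Filter Set

namespace Pool.Agent.R402.RO

theorem seq : SeqStm := by
  intro H _ _ _ 𝔄 h𝔄 Q c hc w hG y hy
  obtain ⟨E, hE, hlim⟩ := (mem_cyc_iff_seq w y).1 hy
  choose F hF hFw hFb using fun n => hG (E n) (hE n)
  refine ⟨F, hF, ?_, ?_, ?_⟩
  · have : (fun n => F n w) = fun n => Q (E n w) := by
      funext n
      exact hFw n
    rw [this]
    exact (Q.continuous.tendsto y).comp hlim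
  · intro η hη
    have hcau : CauchySeq fun n => E n w := hlim.cauchySeq
    have hc1 : 0 < c + 1 := by linarith
    obtain ⟨N, hN⟩ := Metric.cauchySeq_iff.1 hcau (η / (c + 1)) (div_pos hη hc1)
    refine ⟨N, fun m hm n hn x hx => ?_⟩
    have hd : ‖E m w - E n w‖ < η / (c + 1) := by
      rw [← dist_eq_norm]
      exact hN m hm n hn
    obtain ⟨F', hF', hF'w, hF'b⟩ := hG (E m - E n) (sub_mem (hE m) (hE n))
    have e1 : F' w = (F m - F n) w := by
      rw [hF'w, ContinuousLinearMap.sub_apply, ContinuousLinearMap.sub_apply, map_sub, hFw, hFw]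
    have e2 : F' x = (F m - F n) x := eq_on_cyc h𝔄 hF' (sub_mem (hF m) (hF n)) e1 hx
    have e3 := hF'b x hx
    rw [e2, ContinuousLinearMap.sub_apply, ContinuousLinearMap.sub_apply] at e3
    refine e3.trans (mul_le_mul_of_nonneg_right ?_ (norm_nonneg _))
    calc c * ‖E m w - E n w‖ ≤ (c + 1) * ‖E m w - E n w‖ :=
          mul_le_mul_of_nonneg_right (by linarith) (norm_nonneg _)
      _ ≤ (c + 1) * (η / (c + 1)) := mul_le_mul_of_nonneg_left hd.le hc1.le
      _ = η := by field_simp
  · intro η hη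
    have h1 : Tendsto (fun n => c * ‖E n w‖) atTop (𝓝 (c * ‖y‖)) := hlim.norm.const_mul c
    have h2 : ∀ᶠ n in atTop, c * ‖E n w‖ < c * ‖y‖ + η :=
      h1.eventually (gt_mem_nhds (by linarith))
    obtain ⟨N, hN⟩ := eventually_atTop.1 h2
    refine ⟨N, fun n hn x hx => (hFb n x hx).trans ?_⟩
    exact mul_le_mul_of_nonneg_right (hN n hn).le (norm_nonneg _)

end Pool.Agent.R402.RO
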