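import Pool.Agent.R402.RO.Stm

set_option autoImplicit false
open scoped InnerProductSpace Topology ComplexConjugate
open Filter Set

/-! UL (helper790): ultrafilter limits of bounded sequences of operators. -/

namespace Pool.Agent.R402.RO

theorem ul : ULStm := by
  intro H _ _ _ B k hB 𝒰
  have hk : 0 ≤ k := (norm_nonneg _).trans (hB 0)
  have hbd : ∀ (x y : H) (n : ℕ), ‖⟪x, B n y⟫_ℂ‖ ≤ k * ‖x‖ * ‖y‖ := by
    intro x y n
    calc ‖⟪x, B n y⟫_ℂ‖ ≤ ‖x‖ * ‖B n y‖ := norm_inner_le_norm _ _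
      _ ≤ ‖x‖ * (k * ‖y‖) :=
          mul_le_mul_of_nonneg_left ((B n).le_of_opNorm_le (hB n) y) (norm_nonneg _)
      _ = _ := by ring
  have hex : ∀ x y : H, ∃ l : ℂ, ‖l‖ ≤ k * ‖x‖ * ‖y‖ ∧
      Tendsto (fun n => ⟪x, B n y⟫_ℂ) (𝒰 : Filter ℕ) (𝓝 l) := by
    intro x y
    have hc : IsCompact (Metric.closedBall (0 : ℂ) (k * ‖x‖ * ‖y‖)) := isCompact_closedBall _ _
    obtain ⟨l, hl, hle⟩ := hc.ultrafilter_le_nhds (𝒰.map fun n => ⟪x, B n y⟫_ℂ) (by
      rw [Filter.le_principal_iff, Ultrafilter.coe_map, Filter.mem_map]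
      refine Filter.univ_mem' fun n => ?_
      change ⟪x, B n y⟫_ℂ ∈ Metric.closedBall (0 : ℂ) (k * ‖x‖ * ‖y‖)
      rw [mem_closedBall_zero_iff]
      exact hbd x y n)
    exact ⟨l, mem_closedBall_zero_iff.1 hl, hle⟩
  choose L hLn hL using hex
  have Ladd : ∀ x y y', L x (y + y') = L x y + L x y' := by
    intro x y y'
    refine tendsto_nhds_unique (hL x (y + y')) (((hL x y).add (hL x y')).congr fun n => ?_)
    rw [map_add, inner_add_right]
  have Lsmul : ∀ (c : ℂ) x y, L x (c • y) = c * L x y := by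
    intro c x y
    refine tendsto_nhds_unique (hL x (c • y)) (((hL x y).const_mul c).congr fun n => ?_)
    rw [map_smul, inner_smul_right]
  have Ladd' : ∀ x x' y, L (x + x') y = L x y + L x' y := by
    intro x x' y
    refine tendsto_nhds_unique (hL (x + x') y) (((hL x y).add (hL x' y)).congr fun n => ?_)
    rw [inner_add_left]
  have Lsmul' : ∀ (c : ℂ) x y, L (c • x) y = conj c * L x y := by
    intro c x y
    refine tendsto_nhds_unique (hL (c • x) y) (((hL x y).const_mul (conj c)).congr fun n => ?_)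
    rw [inner_smul_left]
  let φ : H → (H →L[ℂ] ℂ) := fun y => LinearMap.mkContinuous
    { toFun := fun x => conj (L x y)
      map_add' := fun x x' => by rw [Ladd', map_add]
      map_smul' := fun c x => by
        rw [Lsmul', map_mul, Complex.conj_conj, RingHom.id_apply, smul_eq_mul] } (k * ‖y‖)
    (fun x => by
      change ‖conj (L x y)‖ ≤ k * ‖y‖ * ‖x‖
      rw [RCLike.norm_conj]
      refine (hLn x y).trans (le_of_eq ?_)
      ring)
  have hφ : ∀ y x, φ y x = conj (L x y) := fun _ _ => rfl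
  let C0 : H → H := fun y => (InnerProductSpace.toDual ℂ H).symm (φ y)
  have hC0 : ∀ x y, ⟪x, C0 y⟫_ℂ = L x y := by
    intro x y
    have h1 : ⟪C0 y, x⟫_ℂ = φ y x := InnerProductSpace.toDual_symm_apply
    rw [← inner_conj_symm, h1, hφ, Complex.conj_conj]
  have Cadd : ∀ y y', C0 (y + y') = C0 y + C0 y' := by
    intro y y'
    refine ext_inner_left ℂ fun x => ?_
    rw [inner_add_right, hC0, hC0, hC0, Ladd]
  have Csmul : ∀ (c : ℂ) y, C0 (c • y) = c • C0 y := by
    intro c y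
    refine ext_inner_left ℂ fun x => ?_
    rw [inner_smul_right, hC0, hC0, Lsmul]
  have Cbd : ∀ y, ‖C0 y‖ ≤ k * ‖y‖ := by
    intro y
    change ‖(InnerProductSpace.toDual ℂ H).symm (φ y)‖ ≤ k * ‖y‖
    rw [LinearIsometryEquiv.norm_map]
    exact LinearMap.mkContinuous_norm_le _ (by positivity) _
  let C : H →L[ℂ] H := LinearMap.mkContinuous
    { toFun := C0
      map_add' := Cadd
      map_smul' := fun c y => by rw [Csmul, RingHom.id_apply] } k Cbd
  refine ⟨C, LinearMap.mkContinuous_norm_le _ hk _, fun x y => ?_⟩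
  have h2 : ⟪x, C y⟫_ℂ = L x y := hC0 x y
  rw [h2]
  exact hL x y

end Pool.Agent.R402.RO
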