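import Pool.Agent.R402.RO.Stm

/-! Project RO (helper402), piece VEPS. -/

set_option autoImplicit false
open scoped InnerProductSpace Topology
open Filter Set

namespace Pool.Agent.R402.RO

namespace VE

variable {H : Type} [NormedAddCommGroup H] [InnerProductSpace ℂ H] [CompleteSpace H]

/-- log-convexity of the norms of the iterates -/
theorem lc {Q : H →L[ℂ] H} (hQ : ∀ x y : H, ⟪Q x, y⟫_ℂ = ⟪x, Q y⟫_ℂ) (x : H) :
    ‖Q x‖ ^ 2 ≤ ‖x‖ * ‖Q (Q x)‖ := by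
  have h1 : ‖Q x‖ ^ 2 = ‖⟪Q x, Q x⟫_ℂ‖ := by
    rw [inner_self_eq_norm_sq_to_K, norm_pow]
    simp
  rw [h1, hQ x (Q x)]
  exact norm_inner_le_norm _ _

theorem ratio {Q : H →L[ℂ] H} (hQ : ∀ x y : H, ⟪Q x, y⟫_ℂ = ⟪x, Q y⟫_ℂ) (x : H) (n : ℕ) :
    ‖Q x‖ * ‖(Q ^ n) x‖ ≤ ‖x‖ * ‖(Q ^ (n + 1)) x‖ := by
  induction n with
  | zero => simp [mul_comm]
  | succ n ih =>
    have e1 : (Q ^ (n + 1)) x = Q ((Q ^ n) x) := by rw [pow_succ']; rfl
    have e2 : (Q ^ (n + 1 + 1)) x = Q (Q ((Q ^ n) x)) := by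
      rw [pow_succ', pow_succ']; rfl
    have h := lc hQ ((Q ^ n) x)
    rw [e1] at ih ⊢
    rw [e2]
    set N0 := ‖x‖
    set N1 := ‖Q x‖
    set A := ‖(Q ^ n) x‖
    set B := ‖Q ((Q ^ n) x)‖ with hB
    set C := ‖Q (Q ((Q ^ n) x))‖
    have hB0 : 0 ≤ B := norm_nonneg _
    have hC0 : 0 ≤ C := norm_nonneg _
    have hN0 : 0 ≤ N0 := norm_nonneg _
    have hN1 : 0 ≤ N1 := norm_nonneg _
    rcases hB0.eq_or_lt with h0 | h0
    · rw [← h0, mul_zero]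
      positivity
    · have h3 : (N1 * B) * B ≤ (N0 * C) * B := by
        calc (N1 * B) * B = N1 * B ^ 2 := by ring
          _ ≤ N1 * (A * C) := by gcongr
          _ = (N1 * A) * C := by ring
          _ ≤ (N0 * B) * C := by gcongr
          _ = (N0 * C) * B := by ring
      exact le_of_mul_le_mul_right h3 h0

theorem lower {Q : H →L[ℂ] H} (hQ : ∀ x y : H, ⟪Q x, y⟫_ℂ = ⟪x, Q y⟫_ℂ) {x : H} (hx : x ≠ 0)
    (n : ℕ) : (‖Q x‖ / ‖x‖) ^ n * ‖x‖ ≤ ‖(Q ^ n) x‖ := by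
  have hx0 : 0 < ‖x‖ := norm_pos_iff.mpr hx
  induction n with
  | zero => simp
  | succ n ih =>
    have h := ratio hQ x n
    have h1 : ‖Q x‖ / ‖x‖ * ‖(Q ^ n) x‖ ≤ ‖(Q ^ (n + 1)) x‖ := by
      rw [div_mul_eq_mul_div, div_le_iff₀ hx0]
      linarith
    calc (‖Q x‖ / ‖x‖) ^ (n + 1) * ‖x‖ = ‖Q x‖ / ‖x‖ * ((‖Q x‖ / ‖x‖) ^ n * ‖x‖) := by ring
      _ ≤ ‖Q x‖ / ‖x‖ * ‖(Q ^ n) x‖ := by gcongr
      _ ≤ _ := h1

theorem bd_of_growth {Q : H →L[ℂ] H} (hQ : ∀ x y : H, ⟪Q x, y⟫_ℂ = ⟪x, Q y⟫_ℂ) {a C : ℝ}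
    (ha : 0 ≤ a) {x : H} (h : ∀ n : ℕ, ‖(Q ^ n) x‖ ≤ C * a ^ n) : ‖Q x‖ ≤ a * ‖x‖ := by
  by_cases hx : x = 0
  · simp [hx]
  have hx0 : 0 < ‖x‖ := norm_pos_iff.mpr hx
  by_contra hc
  push Not at hc
  rcases ha.eq_or_lt with h0 | h0
  · have h1 := h 1
    rw [← h0] at h1 hc
    simp at h1
    rw [h1] at hc
    simp at hc
  · have hq : 1 < ‖Q x‖ / ‖x‖ / a := by
      rw [lt_div_iff₀ h0, one_mul, lt_div_iff₀ hx0]
      exact hc
    obtain ⟨n, hn⟩ := pow_unbounded_of_one_lt (C / ‖x‖) hq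
    have h2 := (lower hQ hx n).trans (h n)
    rw [div_lt_iff₀ hx0, div_pow] at hn
    have hap : 0 < a ^ n := pow_pos h0 n
    have h3 : C * a ^ n < (‖Q x‖ / ‖x‖) ^ n * ‖x‖ := by
      have := mul_lt_mul_of_pos_right hn hap
      calc C * a ^ n < (‖Q x‖ / ‖x‖) ^ n / a ^ n * ‖x‖ * a ^ n := this
        _ = (‖Q x‖ / ‖x‖) ^ n * ‖x‖ := by field_simp
    exact absurd h2 (not_le.mpr h3)

/-- the vectors with growth at most `a ^ n` -/
def Gr (Q : H →L[ℂ] H) (a : ℝ) : Submodule ℂ H where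
  carrier := {x | ∃ C : ℝ, ∀ n : ℕ, ‖(Q ^ n) x‖ ≤ C * a ^ n}
  zero_mem' := ⟨0, fun n => by simp⟩
  add_mem' := by
    rintro x y ⟨C, hC⟩ ⟨D, hD⟩
    refine ⟨C + D, fun n => ?_⟩
    rw [map_add, add_mul]
    exact (norm_add_le _ _).trans (add_le_add (hC n) (hD n))
  smul_mem' := by
    rintro r x ⟨C, hC⟩
    refine ⟨‖r‖ * C, fun n => ?_⟩
    rw [map_smul, norm_smul, mul_assoc]
    exact mul_le_mul_of_nonneg_left (hC n) (norm_nonneg _)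

end VE

open VE in
theorem veps : VepsStm := by
  intro H _ _ _ 𝔄 h𝔄 Q c hc hQ hinv z hbd hex
  obtain ⟨y0, hy0K, hy0⟩ := hex
  set K := cyc 𝔄 z with hK
  have hQy0 : 0 < ‖Q y0‖ := norm_pos_iff.mpr hy0
  have hd : 0 < 2 * (c * ‖y0‖ + 1) := by positivity
  set ε : ℝ := ‖Q y0‖ / (2 * (c * ‖y0‖ + 1)) with hε
  have hε0 : 0 < ε := by positivity
  have hεy : c * ε * ‖y0‖ < ‖Q y0‖ := by
    have h1 : ε * (2 * (c * ‖y0‖ + 1)) = ‖Q y0‖ := by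
      rw [hε]; field_simp
    have h2 : 0 ≤ ε * (c * ‖y0‖) := by positivity
    nlinarith
  have ha0 : 0 ≤ c * ε := by positivity
  -- the family
  set F : Set (Submodule ℂ H) :=
    {R | CI 𝔄 R ∧ R ≤ K ∧ ∀ x ∈ R, ‖⟪x, z⟫_ℂ‖ ≤ ε * ‖x‖} with hF
  set V0 : Submodule ℂ H := sSup F with hV0
  have hFG : V0 ≤ Gr Q (c * ε) := by
    apply sSup_le
    rintro R ⟨hR1, hR2, hR3⟩ x hx
    refine ⟨‖x‖, fun n => ?_⟩
    have hmem : ∀ n : ℕ, (Q ^ n) x ∈ R := by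
      intro n
      induction n with
      | zero => simpa using hx
      | succ n ih =>
        rw [pow_succ']
        exact hinv R hR1 _ ih
    induction n with
    | zero => simp
    | succ n ih =>
      have h1 := hbd R hR1 hR2 ε hε0.le hR3 _ (hmem n)
      have e1 : (Q ^ (n + 1)) x = Q ((Q ^ n) x) := by rw [pow_succ']; rfl
      rw [e1]
      calc ‖Q ((Q ^ n) x)‖ ≤ c * ε * ‖(Q ^ n) x‖ := h1
        _ ≤ c * ε * (‖x‖ * (c * ε) ^ n) := by gcongr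
        _ = ‖x‖ * (c * ε) ^ (n + 1) := by ring
  have hV0bd : ∀ x ∈ V0, ‖Q x‖ ≤ c * ε * ‖x‖ := by
    intro x hx
    obtain ⟨C, hC⟩ := hFG hx
    exact bd_of_growth hQ ha0 hC
  set V : Submodule ℂ H := V0.topologicalClosure with hV
  have hVbd : ∀ x ∈ V, ‖Q x‖ ≤ c * ε * ‖x‖ := by
    intro x hx
    have hcl : IsClosed {x : H | ‖Q x‖ ≤ c * ε * ‖x‖} :=
      isClosed_le (by fun_prop) (by fun_prop)
    have hsub : closure (V0 : Set H) ⊆ {x : H | ‖Q x‖ ≤ c * ε * ‖x‖} :=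
      closure_minimal (fun x hx => hV0bd x hx) hcl
    exact hsub (by rw [← Submodule.topologicalClosure_coe]; exact hx)
  have hKCI : CI 𝔄 K := cyc_CI z
  have hVK : V ≤ K := by
    apply Submodule.topologicalClosure_minimal _ _ hKCI.1
    apply sSup_le
    rintro R ⟨_, hR2, _⟩
    exact hR2
  have hVCI : CI 𝔄 V := by
    refine ⟨Submodule.isClosed_topologicalClosure _, ?_⟩
    intro S hS
    have h1 : V0 ≤ Submodule.comap (S : H →ₗ[ℂ] H) V := by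
      apply sSup_le
      rintro R hR x hx
      have h2 : S x ∈ R := hR.1.2 S hS x hx
      have h3 : S x ∈ V0 := (le_sSup hR) h2
      exact Submodule.le_topologicalClosure _ h3
    have h4 : V ≤ Submodule.comap (S : H →ₗ[ℂ] H) V := by
      apply Submodule.topologicalClosure_minimal _ h1
      exact (Submodule.isClosed_topologicalClosure V0).preimage S.continuous
    intro v hv
    exact h4 hv
  obtain ⟨a, ha, b, hb, hab, hnorm⟩ := hVCI.decomp y0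
  have hale : ‖a‖ ≤ ‖y0‖ := by
    apply le_of_sq_le_sq _ (norm_nonneg _)
    nlinarith [sq_nonneg ‖b‖]
  have hQb : Q b ≠ 0 := by
    intro h0
    have h1 : Q y0 = Q a := by rw [hab, map_add, h0, add_zero]
    have h2 := hVbd a ha
    rw [← h1] at h2
    have h3 : c * ε * ‖a‖ ≤ c * ε * ‖y0‖ := by gcongr
    linarith
  have hbK : b ∈ K := by
    have : b = y0 - a := by rw [hab]; abel
    rw [this]
    exact sub_mem hy0K (hVK ha)
  refine ⟨ε, hε0, b, hbK, hQb, ?_⟩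
  intro w hwK hwz
  obtain ⟨b1, hb1, b2, hb2, hb12, _⟩ := (cyc_CI (𝔄 := 𝔄) w).decomp b
  have hwle : cyc 𝔄 w ≤ K := cyc_le hKCI hwK
  have hb2K : b2 ∈ K := by
    have : b2 = b - b1 := by rw [hb12]; abel
    rw [this]
    exact sub_mem hbK (hwle hb1)
  have hRmem : ((cyc 𝔄 w)ᗮ ⊓ K) ∈ F := by
    refine ⟨((cyc_CI w).orth h𝔄).inf hKCI, inf_le_right, ?_⟩
    intro x hx
    have h1 : ⟪x, w⟫_ℂ = 0 := by
      have := (Submodule.mem_orthogonal' _ _).1 hx.1 w (mem_cyc_self w)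
      exact this
    have h2 : ⟪x, z⟫_ℂ = ⟪x, z - w⟫_ℂ := by rw [inner_sub_right, h1, sub_zero]
    rw [h2]
    calc ‖⟪x, z - w⟫_ℂ‖ ≤ ‖x‖ * ‖z - w‖ := norm_inner_le_norm _ _
      _ ≤ ‖x‖ * ε := by
        rw [norm_sub_rev]
        gcongr
      _ = ε * ‖x‖ := mul_comm _ _
  have hb2V : b2 ∈ V := Submodule.le_topologicalClosure _ ((le_sSup hRmem) ⟨hb2, hb2K⟩)
  have h0 : ⟪b2, b⟫_ℂ = 0 := (Submodule.mem_orthogonal _ _).1 hb b2 hb2V
  have h1 : ⟪b2, b1⟫_ℂ = 0 := (Submodule.mem_orthogonal' _ _).1 hb2 b1 hb1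
  rw [hb12, inner_add_right, h1, zero_add] at h0
  have h2 : b2 = 0 := inner_self_eq_zero.1 h0
  rw [hb12, h2, add_zero]
  exact hb1

end Pool.Agent.R402.RO
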