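import Pool.Agent.R402.RO.Main
import Pool.Agent.R402.RO.UL
import Pool.Agent.R402.RO.BAIRE
import Pool.Agent.R402.RO.HOL
import Pool.Agent.R402.RO.NIL
import Pool.Agent.R402.RO.LOC
import Pool.Agent.R402.RO.QLOC
import Pool.Agent.R402.RO.SEQ
import Pool.Agent.R402.RO.BD
import Pool.Agent.R402.RO.VEPS
import Pool.Agent.R402.RO.CHI
import Pool.Agent.R402.RO.END

/-! MP_49c4d9_an: for a reductive operator `T` and an operator `R` that leaves the closed invariant
subspaces of `T` invariant (for instance `R = T*`), if `R x ∈ {T}'' x` for a nonmeagre set of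
vectors `x` then `R ∈ {T}''`.  For `R = T*` this says that `T` is normal. -/

set_option autoImplicit false

namespace Pool.Agent.Results.MP_49c4d9_an.NonmeagreReflexivity

theorem result : ∀ (H : Type) [NormedAddCommGroup H] [InnerProductSpace ℂ H] [CompleteSpace H]
    (T R : H →L[ℂ] H),
    (∀ M : Submodule ℂ H, IsClosed (M : Set H) → (∀ v ∈ M, T v ∈ M) →
      (∀ v ∈ M, (star T) v ∈ M) ∧ ∀ v ∈ M, R v ∈ M) →
    ¬ IsMeagre {x : H | ∃ S : H →L[ℂ] H,
      (∀ C : H →L[ℂ] H, C * T = T * C → S * C = C * S) ∧ S x = R x} →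
    ∀ C : H →L[ℂ] H, C * T = T * C → R * C = C * R := by
  intro H _ _ _ T R hred hnm
  exact R402.RO.main_of (R402.RO.baire_of R402.RO.ul)
    (R402.RO.qloc_of (R402.RO.loc_of R402.RO.hol R402.RO.nil)) R402.RO.seq
    (R402.RO.bd_of R402.RO.seq) R402.RO.veps (R402.RO.end_of R402.RO.chi) T R hred hnm

end Pool.Agent.Results.MP_49c4d9_an.NonmeagreReflexivity
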