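import Pool.Agent.R402.RO.Stm

/-! RED: the WOT closed algebra generated by a reductive operator. -/

set_option autoImplicit false
open scoped InnerProductSpace Topology
open Filter Set

namespace Pool.Agent.R402.RO

namespace RedPf

variable {H : Type} [NormedAddCommGroup H] [InnerProductSpace ℂ H]

theorem appr1 {T S : H →L[ℂ] H} (hS : S ∈ wotAlg T) (x y : H) {ε : ℝ} (hε : 0 < ε) :
    ∃ p : Polynomial ℂ, ‖⟪(S - Polynomial.aeval T p) x, y⟫_ℂ‖ < ε := by
  obtain ⟨p, hp⟩ := hS 1 (fun _ => x) (fun _ => y) ε hε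
  exact ⟨p, hp 0⟩

theorem appr2 {T S : H →L[ℂ] H} (hS : S ∈ wotAlg T) (x y x' y' : H) {ε : ℝ} (hε : 0 < ε) :
    ∃ p : Polynomial ℂ, ‖⟪(S - Polynomial.aeval T p) x, y⟫_ℂ‖ < ε ∧
      ‖⟪(S - Polynomial.aeval T p) x', y'⟫_ℂ‖ < ε := by
  obtain ⟨p, hp⟩ := hS 2 ![x, x'] ![y, y'] ε hε
  exact ⟨p, hp 0, hp 1⟩

theorem commP {T R : H →L[ℂ] H} (h : R * T = T * R) (p : Polynomial ℂ) :
    R * Polynomial.aeval T p = Polynomial.aeval T p * R := by
  have hc : Commute R T := h
  induction p using Polynomial.induction_on' with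
  | add p q hp hq => rw [map_add, mul_add, add_mul, hp, hq]
  | monomial n a =>
    rw [Polynomial.aeval_monomial, ← mul_assoc, ← Algebra.commutes, mul_assoc,
      (hc.pow_right n).eq, ← mul_assoc]

variable [CompleteSpace H]

theorem comm_of {T S R : H →L[ℂ] H} (hS : S ∈ wotAlg T) (hR : R * T = T * R) :
    S * R = R * S := by
  ext x
  rw [← sub_eq_zero]
  apply ext_inner_right ℂ
  intro y
  rw [inner_zero_left]
  by_contra hne
  have hpos : 0 < ‖⟪(S * R) x - (R * S) x, y⟫_ℂ‖ := norm_pos_iff.2 hne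
  obtain ⟨p, h1, h2⟩ := appr2 hS (R x) y x ((star R) y) (half_pos hpos)
  have e : ⟪(S * R) x - (R * S) x, y⟫_ℂ = ⟪(S - Polynomial.aeval T p) (R x), y⟫_ℂ -
      ⟪(S - Polynomial.aeval T p) x, (star R) y⟫_ℂ := by
    rw [ContinuousLinearMap.star_eq_adjoint, ContinuousLinearMap.adjoint_inner_right,
      ← inner_sub_left]
    congr 1
    have h3 : R (Polynomial.aeval T p x) = Polynomial.aeval T p (R x) :=
      congrArg (fun f : H →L[ℂ] H => f x) (commP hR p)
    change S (R x) - R (S x) = (S (R x) - Polynomial.aeval T p (R x)) -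
      R (S x - Polynomial.aeval T p x)
    rw [map_sub, h3]
    abel
  have h4 := norm_sub_le (⟪(S - Polynomial.aeval T p) (R x), y⟫_ℂ)
    (⟪(S - Polynomial.aeval T p) x, (star R) y⟫_ℂ)
  rw [← e] at h4
  linarith

/-- the algebra -/
noncomputable def WA (T : H →L[ℂ] H) : Subalgebra ℂ (H →L[ℂ] H) where
  carrier := wotAlg T
  mul_mem' := by
    intro S S' hS hS' n x y ε hε
    obtain ⟨p, hp⟩ := hS n (fun i => S' (x i)) y (ε / 2) (by positivity)
    obtain ⟨q, hq⟩ := hS' n x (fun i => (star (Polynomial.aeval T p)) (y i)) (ε / 2)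
      (by positivity)
    refine ⟨p * q, fun i => ?_⟩
    have h1 := hp i
    have h2 := hq i
    have e : ⟪(S * S' - Polynomial.aeval T (p * q)) (x i), y i⟫_ℂ =
        ⟪(S - Polynomial.aeval T p) (S' (x i)), y i⟫_ℂ +
        ⟪(S' - Polynomial.aeval T q) (x i), (star (Polynomial.aeval T p)) (y i)⟫_ℂ := by
      rw [ContinuousLinearMap.star_eq_adjoint, ContinuousLinearMap.adjoint_inner_right,
        ← inner_add_left, map_mul]
      congr 1
      change S (S' (x i)) - Polynomial.aeval T p (Polynomial.aeval T q (x i)) =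
        (S (S' (x i)) - Polynomial.aeval T p (S' (x i))) +
        Polynomial.aeval T p (S' (x i) - Polynomial.aeval T q (x i))
      rw [map_sub]
      abel
    rw [e]
    refine (norm_add_le _ _).trans_lt ?_
    linarith
  add_mem' := by
    intro S S' hS hS' n x y ε hε
    obtain ⟨p, hp⟩ := hS n x y (ε / 2) (by positivity)
    obtain ⟨q, hq⟩ := hS' n x y (ε / 2) (by positivity)
    refine ⟨p + q, fun i => ?_⟩
    have h1 := hp i
    have h2 := hq i
    have e : ⟪(S + S' - Polynomial.aeval T (p + q)) (x i), y i⟫_ℂ =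
        ⟪(S - Polynomial.aeval T p) (x i), y i⟫_ℂ +
        ⟪(S' - Polynomial.aeval T q) (x i), y i⟫_ℂ := by
      rw [← inner_add_left, map_add]
      congr 1
      change S (x i) + S' (x i) - (Polynomial.aeval T p (x i) + Polynomial.aeval T q (x i)) =
        (S (x i) - Polynomial.aeval T p (x i)) + (S' (x i) - Polynomial.aeval T q (x i))
      abel
    rw [e]
    refine (norm_add_le _ _).trans_lt ?_
    linarith
  algebraMap_mem' := by
    intro r n x y ε hε
    refine ⟨Polynomial.C r, fun i => ?_⟩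
    rw [Polynomial.aeval_C, sub_self]
    simpa using hε

theorem mem_WA {T S : H →L[ℂ] H} : S ∈ WA T ↔ S ∈ wotAlg T := Iff.rfl

theorem T_mem (T : H →L[ℂ] H) : T ∈ WA T := by
  intro n x y ε hε
  refine ⟨Polynomial.X, fun i => ?_⟩
  rw [Polynomial.aeval_X, sub_self]
  simpa using hε

omit [CompleteSpace H] in
theorem inv_P {T : H →L[ℂ] H} {M : Submodule ℂ H} (h : ∀ v ∈ M, T v ∈ M) (p : Polynomial ℂ) :
    ∀ v ∈ M, Polynomial.aeval T p v ∈ M := by
  have hpow : ∀ (n : ℕ), ∀ v ∈ M, (T ^ n) v ∈ M := by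
    intro n
    induction n with
    | zero =>
      intro v hv
      rw [pow_zero]
      exact hv
    | succ n ih =>
      intro v hv
      rw [pow_succ]
      exact ih _ (h v hv)
  induction p using Polynomial.induction_on' with
  | add p q hp hq =>
    intro v hv
    rw [map_add]
    exact M.add_mem (hp v hv) (hq v hv)
  | monomial n a =>
    intro v hv
    rw [Polynomial.aeval_monomial, ← Algebra.smul_def]
    exact M.smul_mem a (hpow n v hv)

end RedPf

open RedPf

theorem redw : RedStm := by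
  intro H _ _ _ T hT
  refine ⟨WA T, rfl, T_mem T, ?_, ?_, ?_⟩
  · intro S hS R hR
    have h1 : R * T = T * R := comm_of hR rfl
    exact comm_of hS h1
  · intro C hC n x y ε hε
    obtain ⟨S, hS, hS'⟩ := hC n x y (ε / 2) (by positivity)
    obtain ⟨p, hp⟩ := hS n x y (ε / 2) (by positivity)
    refine ⟨p, fun i => ?_⟩
    have h1 := hS' i
    have h2 := hp i
    have e : ⟪(C - Polynomial.aeval T p) (x i), y i⟫_ℂ = ⟪(C - S) (x i), y i⟫_ℂ +
        ⟪(S - Polynomial.aeval T p) (x i), y i⟫_ℂ := by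
      rw [← inner_add_left]
      congr 1
      change C (x i) - Polynomial.aeval T p (x i) =
        (C (x i) - S (x i)) + (S (x i) - Polynomial.aeval T p (x i))
      abel
    rw [e]
    refine (norm_add_le _ _).trans_lt ?_
    linarith
  · intro M hM hinv S hS v hv
    have hTM : ∀ v ∈ M, T v ∈ M := hinv T (T_mem T)
    have hTs := hT M hM hTM
    have hTo : ∀ u ∈ Mᗮ, T u ∈ Mᗮ := by
      intro u hu
      rw [Submodule.mem_orthogonal] at hu ⊢
      intro m hm
      have h1 := hu _ (hTs m hm)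
      rw [ContinuousLinearMap.star_eq_adjoint, ContinuousLinearMap.adjoint_inner_left] at h1
      exact h1
    have hSo : ∀ u ∈ Mᗮ, ∀ m ∈ M, ⟪S u, m⟫_ℂ = 0 := by
      intro u hu m hm
      by_contra hne
      have hpos : 0 < ‖⟪S u, m⟫_ℂ‖ := norm_pos_iff.2 hne
      obtain ⟨p, hp⟩ := appr1 hS u m hpos
      have h1 : ⟪Polynomial.aeval T p u, m⟫_ℂ = 0 :=
        (Submodule.mem_orthogonal' _ _).1 (inv_P hTo p u hu) m hm
      have h2 : ⟪(S - Polynomial.aeval T p) u, m⟫_ℂ = ⟪S u, m⟫_ℂ := by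
        change ⟪S u - Polynomial.aeval T p u, m⟫_ℂ = _
        rw [inner_sub_left, h1, sub_zero]
      rw [h2] at hp
      exact lt_irrefl _ hp
    have hcs : CompleteSpace M := hM.isComplete.completeSpace_coe
    have h3 : (star S) v ∈ Mᗮᗮ := by
      rw [Submodule.mem_orthogonal]
      intro u hu
      rw [ContinuousLinearMap.star_eq_adjoint, ContinuousLinearMap.adjoint_inner_right]
      exact hSo u hu v hv
    rwa [Submodule.orthogonal_orthogonal] at h3

end Pool.Agent.R402.RO
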