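import Pool.Agent.R402.RO.Basic

/-! Statements of the pieces of project RO (helper402). Every `XStm` is a closed `Prop`. -/

set_option autoImplicit false
open scoped InnerProductSpace Topology
open Filter Set

namespace Pool.Agent.R402.RO

/-- UL: ultrafilter limits of bounded sequences of operators -/
def ULStm : Prop := ∀ (H : Type) [NormedAddCommGroup H] [InnerProductSpace ℂ H] [CompleteSpace H]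
  (B : ℕ → H →L[ℂ] H) (k : ℝ), (∀ n, ‖B n‖ ≤ k) → ∀ 𝒰 : Ultrafilter ℕ,
  ∃ C : H →L[ℂ] H, ‖C‖ ≤ k ∧
    ∀ x y : H, Tendsto (fun n => ⟪x, B n y⟫_ℂ) (𝒰 : Filter ℕ) (𝓝 ⟪x, C y⟫_ℂ)

/-- BAIRE -/
def BaireStm : Prop := ∀ (H : Type) [NormedAddCommGroup H] [InnerProductSpace ℂ H] [CompleteSpace H]
  (𝔄 : Subalgebra ℂ (H →L[ℂ] H)) (R : H →L[ℂ] H), Red 𝔄 →
  ¬ IsMeagre {x : H | ∃ S ∈ 𝔄, S x = R x} →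
  ∃ (z : H) (δ k : ℝ), 0 < δ ∧ 0 < k ∧ ∀ x : H, ‖x - z‖ < δ → ∃ S ∈ 𝔄, ‖S‖ ≤ k ∧ S x = R x

/-- HOL: the holomorphic estimate -/
def HolStm : Prop := ∀ (H : Type) [NormedAddCommGroup H] [InnerProductSpace ℂ H] [CompleteSpace H]
  (E G : H →L[ℂ] H) (R : ℂ → H →L[ℂ] H) (K : Set H) (ρ c : ℝ), 0 < ρ → 0 ≤ c →
  E * G = G * E → (∀ t, R t * E = E * R t) → (∀ t, R t * G = G * R t) →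
  (∀ s t, R s * R t = R t * R s) →
  (∀ x ∈ K, E x ∈ K) → (∀ x ∈ K, G x ∈ K) → (∀ t, ∀ x ∈ K, R t x ∈ K) →
  (∀ t, t ≠ 0 → ‖t‖ < ρ → ‖R t‖ ≤ c) →
  (∀ t, t ≠ 0 → ‖t‖ < ρ → ∀ x ∈ K, R t (x + t • E x) = t • G x) →
  ∀ u ∈ K, ‖G (G (G u))‖ ≤ c / ρ * ‖G (G u)‖

/-- NIL: reductivity removes the nilpotent part -/
def NilStm : Prop := ∀ (H : Type) [NormedAddCommGroup H] [InnerProductSpace ℂ H] [CompleteSpace H]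
  (𝔄 : Subalgebra ℂ (H →L[ℂ] H)), Red 𝔄 → ∀ K : Submodule ℂ H, CI 𝔄 K → ∀ G ∈ 𝔄, ∀ C : ℝ, 0 ≤ C →
  (∀ u ∈ K, ‖G (G (G u))‖ ≤ C * ‖G (G u)‖) → ∀ x ∈ K, ‖G x‖ ≤ C * ‖x‖

/-- LOC (uses HOL and NIL) -/
def LocStm : Prop := ∀ (H : Type) [NormedAddCommGroup H] [InnerProductSpace ℂ H] [CompleteSpace H]
  (𝔄 : Subalgebra ℂ (H →L[ℂ] H)), Red 𝔄 → ∀ (R : H →L[ℂ] H) (w : H) (δ k : ℝ), 0 < δ → 0 < k →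
  (∀ x : H, ‖x - w‖ < δ → ∃ S ∈ 𝔄, ‖S‖ ≤ k ∧ S x = R x) →
  ∃ B ∈ 𝔄, ∀ E ∈ 𝔄, ∃ G ∈ 𝔄, G w = R (E w) - B (E w) ∧
    ∀ x ∈ cyc 𝔄 w, ‖G x‖ ≤ 2 * k / δ * ‖E w‖ * ‖x‖

/-- `Good 𝔄 Q c w`: for `E ∈ 𝔄` the vector `Q E w` is `F w` with `F ∈ 𝔄` of norm at most
`c ‖E w‖` on the cyclic subspace of `w` -/
def Good {H : Type} [NormedAddCommGroup H] [InnerProductSpace ℂ H] [CompleteSpace H]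
    (𝔄 : Subalgebra ℂ (H →L[ℂ] H)) (Q : H →L[ℂ] H) (c : ℝ) (w : H) : Prop :=
  ∀ E ∈ 𝔄, ∃ F ∈ 𝔄, F w = Q (E w) ∧ ∀ x ∈ cyc 𝔄 w, ‖F x‖ ≤ c * ‖E w‖ * ‖x‖

/-- QLOC (uses LOC) -/
def QLocStm : Prop := ∀ (H : Type) [NormedAddCommGroup H] [InnerProductSpace ℂ H] [CompleteSpace H]
  (𝔄 : Subalgebra ℂ (H →L[ℂ] H)), Red 𝔄 → ∀ (R D : H →L[ℂ] H), D ∈ 𝔄 →
  ∀ (w : H) (δ k : ℝ), 0 < δ → 0 < k →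
  (∀ x : H, ‖x - w‖ < δ → ∃ S ∈ 𝔄, ‖S‖ ≤ k ∧ S x = R x) →
  Good 𝔄 (R * D - D * R) (4 * k / δ * ‖D‖) w

/-- SEQ -/
def SeqStm : Prop := ∀ (H : Type) [NormedAddCommGroup H] [InnerProductSpace ℂ H] [CompleteSpace H]
  (𝔄 : Subalgebra ℂ (H →L[ℂ] H)), Red 𝔄 → ∀ (Q : H →L[ℂ] H) (c : ℝ), 0 ≤ c → ∀ w : H,
  Good 𝔄 Q c w → ∀ y ∈ cyc 𝔄 w,
  ∃ F : ℕ → H →L[ℂ] H, (∀ n, F n ∈ 𝔄) ∧ Tendsto (fun n => F n w) atTop (𝓝 (Q y)) ∧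
    (∀ η : ℝ, 0 < η → ∃ N : ℕ, ∀ m ≥ N, ∀ n ≥ N, ∀ x ∈ cyc 𝔄 w, ‖F m x - F n x‖ ≤ η * ‖x‖) ∧
    (∀ η : ℝ, 0 < η → ∃ N : ℕ, ∀ n ≥ N, ∀ x ∈ cyc 𝔄 w, ‖F n x‖ ≤ (c * ‖y‖ + η) * ‖x‖)

/-- BD (uses SEQ) -/
def BdStm : Prop := ∀ (H : Type) [NormedAddCommGroup H] [InnerProductSpace ℂ H] [CompleteSpace H]
  (𝔄 : Subalgebra ℂ (H →L[ℂ] H)), Red 𝔄 → ∀ (Q : H →L[ℂ] H) (c : ℝ), 0 ≤ c →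
  (∀ M, CI 𝔄 M → ∀ v ∈ M, Q v ∈ M) → ∀ z : H, Good 𝔄 Q c z →
  ∀ R, CI 𝔄 R → R ≤ cyc 𝔄 z → ∀ a : ℝ, 0 ≤ a → (∀ x ∈ R, ‖⟪x, z⟫_ℂ‖ ≤ a * ‖x‖) →
  ∀ y ∈ R, ‖Q y‖ ≤ c * a * ‖y‖

/-- VEPS -/
def VepsStm : Prop := ∀ (H : Type) [NormedAddCommGroup H] [InnerProductSpace ℂ H] [CompleteSpace H]
  (𝔄 : Subalgebra ℂ (H →L[ℂ] H)), Red 𝔄 → ∀ (Q : H →L[ℂ] H) (c : ℝ), 0 ≤ c →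
  (∀ x y : H, ⟪Q x, y⟫_ℂ = ⟪x, Q y⟫_ℂ) →
  (∀ M, CI 𝔄 M → ∀ v ∈ M, Q v ∈ M) → ∀ z : H,
  (∀ R, CI 𝔄 R → R ≤ cyc 𝔄 z → ∀ a : ℝ, 0 ≤ a → (∀ x ∈ R, ‖⟪x, z⟫_ℂ‖ ≤ a * ‖x‖) →
    ∀ y ∈ R, ‖Q y‖ ≤ c * a * ‖y‖) →
  (∃ y ∈ cyc 𝔄 z, Q y ≠ 0) →
  ∃ ε : ℝ, 0 < ε ∧ ∃ y ∈ cyc 𝔄 z, Q y ≠ 0 ∧ ∀ w ∈ cyc 𝔄 z, ‖w - z‖ < ε → y ∈ cyc 𝔄 w

/-- CHI: a character continuous for the norm of the restriction to a closed invariant subspace -/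
def ChiStm : Prop := ∀ (H : Type) [NormedAddCommGroup H] [InnerProductSpace ℂ H] [CompleteSpace H]
  (𝔄 : Subalgebra ℂ (H →L[ℂ] H)), (∀ S ∈ 𝔄, ∀ R ∈ 𝔄, S * R = R * S) →
  ∀ K : Submodule ℂ H, CI 𝔄 K → K ≠ ⊥ →
  ∃ χ : 𝔄 →ₐ[ℂ] ℂ, ∀ (S : 𝔄) (C : ℝ), 0 ≤ C → (∀ x ∈ K, ‖(S : H →L[ℂ] H) x‖ ≤ C * ‖x‖) → ‖χ S‖ ≤ C

/-- END (uses CHI) -/
def EndStm : Prop := ∀ (H : Type) [NormedAddCommGroup H] [InnerProductSpace ℂ H] [CompleteSpace H]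
  (𝔄 : Subalgebra ℂ (H →L[ℂ] H)), Red 𝔄 → ∀ (z v : H) (ε : ℝ), 0 < ε → v ≠ 0 → v ∈ cyc 𝔄 z →
  (∀ w ∈ cyc 𝔄 z, ‖w - z‖ < ε → ∃ F : ℕ → H →L[ℂ] H, (∀ n, F n ∈ 𝔄) ∧
    Tendsto (fun n => F n w) atTop (𝓝 v) ∧
    (∀ η : ℝ, 0 < η → ∃ N : ℕ, ∀ m ≥ N, ∀ n ≥ N, ∀ x ∈ cyc 𝔄 v, ‖F m x - F n x‖ ≤ η * ‖x‖)) →
  ∃ v1 : H, ⟪v, v1⟫_ℂ ≠ 0 ∧ ∀ S ∈ 𝔄, ∃ μ : ℂ, S v1 = μ • v1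

/-- RED: the WOT closed algebra generated by a reductive operator -/
def wotAlg {H : Type} [NormedAddCommGroup H] [InnerProductSpace ℂ H] (T : H →L[ℂ] H) :
    Set (H →L[ℂ] H) :=
  {S | ∀ (n : ℕ) (x y : Fin n → H) (ε : ℝ), 0 < ε →
    ∃ p : Polynomial ℂ, ∀ i : Fin n, ‖⟪(S - Polynomial.aeval T p) (x i), y i⟫_ℂ‖ < ε}

def RedStm : Prop := ∀ (H : Type) [NormedAddCommGroup H] [InnerProductSpace ℂ H] [CompleteSpace H]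
  (T : H →L[ℂ] H), (∀ M : Submodule ℂ H, IsClosed (M : Set H) → (∀ v ∈ M, T v ∈ M) →
    ∀ v ∈ M, (star T) v ∈ M) →
  ∃ 𝔄 : Subalgebra ℂ (H →L[ℂ] H), (𝔄 : Set (H →L[ℂ] H)) = wotAlg T ∧ T ∈ 𝔄 ∧ Red 𝔄

end Pool.Agent.R402.RO
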